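import Mathlib

set_option autoImplicit false

/-!
The group: K4 is the Klein four group acting on the natural numbers together with the swap a as
the first Grigorchuk group (the naturals are the orbit of the ray 111..., written in binary);
WG is the group of pairs (finitely supported integer lamps, permutation); the example is the
subgroup generated by a, b, c, d and the unit lamp at the base point.  Sanity: `U` describes
words in a, b, c, d by length, value and set of visited sites.
-/

open scoped Pointwise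
open Filter Topology

namespace Pool.Agent.Results.MP_e563b5_al.IntermediateRatio



/-- The Klein four group {e,b,c,d}. -/
inductive K4 | e | b | c | d
deriving DecidableEq

instance : Fintype K4 := ⟨{K4.e, K4.b, K4.c, K4.d}, fun x => by cases x <;> decide⟩

namespace K4

/-- multiplication table -/
def mul : K4 → K4 → K4
  | e, y => y
  | x, e => x
  | b, b => e | b, c => d | b, d => c
  | c, b => d | c, c => e | c, d => b
  | d, b => c | d, c => b | d, d => e

/-- the right section b -> c -> d -> b -/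
def th : K4 → K4
  | e => e | b => c | c => d | d => b

/-- the left section: true means the swap a -/
def al : K4 → Bool
  | e => false | b => true | c => true | d => false

/-- weights -/
def wt : K4 → ℕ
  | e => 0 | b => 3 | c => 2 | d => 1

theorem wt_mul (x y : K4) : wt (mul x y) ≤ wt x + wt y := by
  cases x <;> cases y <;> decide

theorem th_mul (x y : K4) : th (mul x y) = mul (th x) (th y) := by
  cases x <;> cases y <;> rfl

theorem al_mul (x y : K4) : al (mul x y) = xor (al x) (al y) := by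
  cases x <;> cases y <;> rfl

theorem mul_self (x : K4) : mul x x = e := by cases x <;> rfl

theorem contr (x : K4) : 6 * (wt (th x) + (if al x then 3 else 0)) ≤ 5 * (3 + wt x) := by
  cases x <;> decide

end K4

/-- the swap a on ℕ -/
def aN (n : ℕ) : ℕ := if n % 2 = 0 then n + 1 else n - 1

theorem aN_even (m : ℕ) : aN (2 * m) = 2 * m + 1 := by
  unfold aN; simp

theorem aN_odd (m : ℕ) : aN (2 * m + 1) = 2 * m := by
  unfold aN
  rw [if_neg (by omega)]; omega

theorem aN_aN (n : ℕ) : aN (aN n) = n := by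
  rcases Nat.even_or_odd' n with ⟨m, rfl | rfl⟩
  · rw [aN_even, aN_odd]
  · rw [aN_odd, aN_even]

theorem aN_zero : aN 0 = 1 := rfl

/-- action of the Klein group elements on ℕ -/
def klN (x : K4) (n : ℕ) : ℕ :=
  if h : n = 0 then 0
  else if n % 2 = 0 then 2 * klN (K4.th x) (n / 2)
  else if K4.al x then 2 * aN (n / 2) + 1 else n
termination_by n
decreasing_by omega

theorem klN_zero (x : K4) : klN x 0 = 0 := by
  rw [klN]; simp

theorem klN_even (x : K4) (m : ℕ) : klN x (2 * m) = 2 * klN (K4.th x) m := by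
  rcases Nat.eq_zero_or_pos m with rfl | hm
  · simp [klN_zero]
  · rw [klN]
    rw [dif_neg (by omega), if_pos (by omega)]
    congr 2
    omega

theorem klN_odd (x : K4) (m : ℕ) :
    klN x (2 * m + 1) = 2 * (if K4.al x then aN m else m) + 1 := by
  rw [klN]
  rw [dif_neg (by omega), if_neg (by omega)]
  have : (2 * m + 1) / 2 = m := by omega
  rw [this]
  split_ifs <;> rfl

theorem klN_mul (x y : K4) (n : ℕ) : klN (K4.mul x y) n = klN x (klN y n) := by
  induction n using Nat.strong_induction_on generalizing x y with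
  | _ n ih =>
    rcases Nat.even_or_odd' n with ⟨m, rfl | rfl⟩
    · rcases Nat.eq_zero_or_pos m with rfl | hm
      · simp [klN_zero]
      · rw [klN_even, klN_even, klN_even, K4.th_mul, ih m (by omega)]
    · rw [klN_odd, klN_odd, klN_odd, K4.al_mul]
      cases K4.al x <;> cases K4.al y <;> simp [aN_aN]

theorem klN_e (n : ℕ) : klN K4.e n = n := by
  induction n using Nat.strong_induction_on with
  | _ n ih =>
    rcases Nat.even_or_odd' n with ⟨m, rfl | rfl⟩
    · rcases Nat.eq_zero_or_pos m with rfl | hm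
      · simp [klN_zero]
      · rw [klN_even]
        show 2 * klN K4.e m = _
        rw [ih m (by omega)]
    · rw [klN_odd]; simp [K4.al]

/-- a as a permutation -/
def aP : Equiv.Perm ℕ := ⟨aN, aN, aN_aN, aN_aN⟩

/-- x as a permutation -/
def kP (x : K4) : Equiv.Perm ℕ :=
  ⟨klN x, klN x, fun n => by rw [← klN_mul, K4.mul_self, klN_e],
    fun n => by rw [← klN_mul, K4.mul_self, klN_e]⟩

@[simp] theorem aP_apply (n : ℕ) : aP n = aN n := rfl
@[simp] theorem kP_apply (x : K4) (n : ℕ) : kP x n = klN x n := rfl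

theorem kP_mul (x y : K4) : kP x * kP y = kP (K4.mul x y) := by
  ext n; simp [klN_mul]

theorem kP_e : kP K4.e = 1 := by
  ext n; simp [klN_e]

theorem aP_aP : aP * aP = 1 := by
  ext n; simp [aN_aN]

/-- power of a -/
def ap (t : Bool) : Equiv.Perm ℕ := if t then aP else 1

theorem ap_apply (t : Bool) (n : ℕ) : ap t n = if t then aN n else n := by
  cases t <;> simp [ap]

/-- assembling a function from two strands -/
def asmF (s : Bool) (gE gO : ℕ → ℕ) (n : ℕ) : ℕ :=
  match s, n % 2 with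
  | false, 0 => 2 * gE (n / 2)
  | false, _ => 2 * gO (n / 2) + 1
  | true, 0 => 2 * gO (n / 2) + 1
  | true, _ => 2 * gE (n / 2)

theorem asmF_false_even (gE gO : ℕ → ℕ) (m : ℕ) : asmF false gE gO (2 * m) = 2 * gE m := by
  simp [asmF]

theorem asmF_false_odd (gE gO : ℕ → ℕ) (m : ℕ) :
    asmF false gE gO (2 * m + 1) = 2 * gO m + 1 := by
  have h : (2 * m + 1) % 2 = 1 := by omega
  have h' : (2 * m + 1) / 2 = m := by omega
  simp [asmF, h, h']

theorem asmF_true_even (gE gO : ℕ → ℕ) (m : ℕ) : asmF true gE gO (2 * m) = 2 * gO m + 1 := by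
  simp [asmF]

theorem asmF_true_odd (gE gO : ℕ → ℕ) (m : ℕ) :
    asmF true gE gO (2 * m + 1) = 2 * gE m := by
  have h : (2 * m + 1) % 2 = 1 := by omega
  have h' : (2 * m + 1) / 2 = m := by omega
  simp [asmF, h, h']

/-- assembling a permutation from two strands -/
def asm (s : Bool) (gE gO : Equiv.Perm ℕ) : Equiv.Perm ℕ :=
  match s with
  | false => ⟨asmF false gE gO, asmF false gE.symm gO.symm,
      fun n => by
        rcases Nat.even_or_odd' n with ⟨m, rfl | rfl⟩
        · rw [asmF_false_even, asmF_false_even]; simp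
        · rw [asmF_false_odd, asmF_false_odd]; simp,
      fun n => by
        rcases Nat.even_or_odd' n with ⟨m, rfl | rfl⟩
        · rw [asmF_false_even, asmF_false_even]; simp
        · rw [asmF_false_odd, asmF_false_odd]; simp⟩
  | true => ⟨asmF true gE gO, asmF true gO.symm gE.symm,
      fun n => by
        rcases Nat.even_or_odd' n with ⟨m, rfl | rfl⟩
        · rw [asmF_true_even, asmF_true_odd]; simp
        · rw [asmF_true_odd, asmF_true_even]; simp,
      fun n => by
        rcases Nat.even_or_odd' n with ⟨m, rfl | rfl⟩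
        · rw [asmF_true_even, asmF_true_odd]; simp
        · rw [asmF_true_odd, asmF_true_even]; simp⟩

theorem asm_apply (s : Bool) (gE gO : Equiv.Perm ℕ) (n : ℕ) : asm s gE gO n = asmF s gE gO n := by
  cases s <;> rfl

theorem asm_mul_a (s : Bool) (gE gO : Equiv.Perm ℕ) : asm s gE gO * aP = asm (!s) gE gO := by
  ext n
  rw [Equiv.Perm.mul_apply, aP_apply, asm_apply, asm_apply]
  rcases Nat.even_or_odd' n with ⟨m, rfl | rfl⟩
  · rw [aN_even]
    cases s
    · show asmF false gE gO _ = asmF true gE gO _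
      rw [asmF_false_odd, asmF_true_even]
    · show asmF true gE gO _ = asmF false gE gO _
      rw [asmF_true_odd, asmF_false_even]
  · rw [aN_odd]
    cases s
    · show asmF false gE gO _ = asmF true gE gO _
      rw [asmF_false_even, asmF_true_odd]
    · show asmF true gE gO _ = asmF false gE gO _
      rw [asmF_true_even, asmF_false_odd]

theorem asm_false_mul_k (gE gO : Equiv.Perm ℕ) (x : K4) :
    asm false gE gO * kP x = asm false (gE * kP (K4.th x)) (gO * ap (K4.al x)) := by
  ext n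
  rw [Equiv.Perm.mul_apply, kP_apply, asm_apply, asm_apply]
  rcases Nat.even_or_odd' n with ⟨m, rfl | rfl⟩
  · rw [klN_even, asmF_false_even, asmF_false_even]; simp
  · rw [klN_odd, asmF_false_odd, asmF_false_odd]; simp [ap_apply]

theorem asm_true_mul_k (gE gO : Equiv.Perm ℕ) (x : K4) :
    asm true gE gO * kP x = asm true (gE * ap (K4.al x)) (gO * kP (K4.th x)) := by
  ext n
  rw [Equiv.Perm.mul_apply, kP_apply, asm_apply, asm_apply]
  rcases Nat.even_or_odd' n with ⟨m, rfl | rfl⟩
  · rw [klN_even, asmF_true_even, asmF_true_even]; simp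
  · rw [klN_odd, asmF_true_odd, asmF_true_odd]; simp [ap_apply]

theorem kP_eq_asm (x : K4) : kP x = asm false (kP (K4.th x)) (ap (K4.al x)) := by
  ext n
  rw [kP_apply, asm_apply]
  rcases Nat.even_or_odd' n with ⟨m, rfl | rfl⟩
  · rw [klN_even, asmF_false_even]; simp
  · rw [klN_odd, asmF_false_odd]; simp [ap_apply]

/-- weighted paths: P r g O means that g is the value of a word of weight r with set of sites O -/
inductive P : ℕ → Equiv.Perm ℕ → Finset ℕ → Prop
  | one : P 0 1 {0}
  | kstep (r : ℕ) (g : Equiv.Perm ℕ) (O : Finset ℕ) (x : K4) :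
      P r g O → P (r + K4.wt x) (g * kP x) O
  | astep (r : ℕ) (g : Equiv.Perm ℕ) (O : Finset ℕ) :
      P r g O → P (r + 3) (g * aP) (insert (g 1) O)

/-- alternating words -/
inductive Alt : ℕ → Equiv.Perm ℕ → Finset ℕ → Prop
  | base (x : K4) : Alt (K4.wt x) (kP x) {0}
  | step (r : ℕ) (g : Equiv.Perm ℕ) (O : Finset ℕ) (x : K4) :
      Alt r g O → Alt (r + 3 + K4.wt x) (g * aP * kP x) (insert (g 1) O)

theorem P.mem {r : ℕ} {g : Equiv.Perm ℕ} {O : Finset ℕ} (h : P r g O) : g 0 ∈ O := by
  induction h with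
  | one => simp
  | kstep r g O x h ih => simpa [klN_zero] using ih
  | astep r g O h ih => simp [aN_zero]

theorem P.alt {r : ℕ} {g : Equiv.Perm ℕ} {O : Finset ℕ} (h : P r g O) :
    ∃ r' ≤ r, Alt r' g O := by
  induction h with
  | one => exact ⟨0, le_refl _, by simpa [kP_e, K4.wt] using Alt.base K4.e⟩
  | kstep r g O x h ih =>
    obtain ⟨r', hr', ha⟩ := ih
    cases ha with
    | base y =>
      refine ⟨K4.wt (K4.mul y x), ?_, ?_⟩
      · have := K4.wt_mul y x; omega
      · rw [kP_mul]; exact Alt.base _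
    | step r₁ g₁ O₁ y h₁ =>
      refine ⟨r₁ + 3 + K4.wt (K4.mul y x), ?_, ?_⟩
      · have := K4.wt_mul y x; omega
      · rw [mul_assoc, kP_mul]; exact Alt.step _ _ _ _ h₁
  | astep r g O h ih =>
    obtain ⟨r', hr', ha⟩ := ih
    refine ⟨r' + 3, by omega, ?_⟩
    have := Alt.step r' g O K4.e ha
    simpa [kP_e, K4.wt] using this

theorem Alt.toP {r : ℕ} {g : Equiv.Perm ℕ} {O : Finset ℕ} (h : Alt r g O) : P r g O := by
  induction h with
  | base x => simpa using P.kstep 0 1 {0} x P.one
  | step r g O x h ih =>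
    exact P.kstep _ _ _ x (P.astep _ _ _ ih)

/-- images of the strands' sites -/
def dblE (O : Finset ℕ) : Finset ℕ := O.image (fun m => 2 * m)

/-- images of the strands' sites -/
def dblO (t : Bool) (O : Finset ℕ) : Finset ℕ := O.image (fun m => 2 * ap t m + 1)




theorem P.pend {r : ℕ} {g : Equiv.Perm ℕ} {O : Finset ℕ} (h : P r g O) (t : Bool) (x : K4) :
    ∃ O', P (r + (if t then 3 else 0) + K4.wt x) (g * ap t * kP x) O' ∧
      O' = insert (g (ap t 0)) O := by
  cases t with
  | false =>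
    refine ⟨O, ?_, ?_⟩
    · simpa [ap] using P.kstep r g O x h
    · have := h.mem
      simp [ap, this]
  | true =>
    refine ⟨insert (g 1) O, ?_, ?_⟩
    · simpa [ap] using P.kstep _ _ _ x (P.astep r g O h)
    · simp [ap, aN_zero]

theorem dblE_insert (y : ℕ) (O : Finset ℕ) : dblE (insert y O) = insert (2 * y) (dblE O) := by
  simp [dblE, Finset.image_insert]

theorem dblO_insert (t : Bool) (y : ℕ) (O : Finset ℕ) :
    dblO t (insert y O) = insert (2 * ap t y + 1) (dblO t O) := by
  simp [dblO, Finset.image_insert]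

theorem Alt.decomp {r : ℕ} {g : Equiv.Perm ℕ} {O : Finset ℕ} (h : Alt r g O) :
    (∃ x, g = kP x ∧ O = {0} ∧ r = K4.wt x) ∨
    ∃ (s σ τ : Bool) (rE rO : ℕ) (hE hO : Equiv.Perm ℕ) (OE OO : Finset ℕ),
      P rE hE OE ∧ P rO hO OO ∧ 6 * (rE + rO + (if τ then 3 else 0)) ≤ 5 * (r + 3) ∧
      O = dblE OE ∪ dblO σ OO ∧
      g = asm s (if s then hE * ap τ else hE) (if s then ap σ * hO else ap σ * hO * ap τ) := by
  induction h with
  | base x => exact Or.inl ⟨x, rfl, rfl, rfl⟩
  | step r g O x h ih =>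
    right
    rcases ih with ⟨x0, rfl, rfl, rfl⟩ | ⟨s, σ, τ, rE, rO, hE, hO, OE, OO, hPE, hPO, hw, hO', hg⟩
    · refine ⟨true, K4.al x0, K4.al x, K4.wt (K4.th x0), K4.wt (K4.th x), kP (K4.th x0),
        kP (K4.th x), {0}, {0}, (Alt.base _).toP, (Alt.base _).toP, ?_, ?_, ?_⟩
      · have h1 := K4.contr x0
        have h2 := K4.contr x
        split_ifs at * <;> omega
      · have : (kP x0) 1 = 2 * (ap (K4.al x0) 0) + 1 := by
          have := klN_odd x0 0
          simpa [ap_apply] using this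
        rw [this]
        ext z
        simp [dblE, dblO, or_comm]
      · rw [kP_eq_asm x0, asm_mul_a]
        show asm true _ _ * _ = _
        rw [asm_true_mul_k]
        simp
    · cases s with
      | false =>
        obtain ⟨O'', hP'', hO''⟩ := hPO.pend τ (K4.th x)
        refine ⟨true, σ, K4.al x, rE, _, hE, _, OE, O'', hPE, hP'', ?_, ?_, ?_⟩
        · have h2 := K4.contr x
          split_ifs at * <;> omega
        · have : g 1 = 2 * ap σ (hO (ap τ 0)) + 1 := by
            have := asmF_false_odd (⇑hE) (⇑(ap σ * hO * ap τ)) 0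
            rw [hg, asm_apply]
            simpa using this
          rw [this, hO', hO'', dblO_insert]
          ext z; simp only [Finset.mem_insert, Finset.mem_union]; tauto
        · rw [hg, asm_mul_a]
          show asm true _ _ * _ = _
          rw [asm_true_mul_k]
          simp [mul_assoc]
      | true =>
        obtain ⟨O'', hP'', hO''⟩ := hPE.pend τ (K4.th x)
        refine ⟨false, σ, K4.al x, _, rO, _, hO, O'', OO, hP'', hPO, ?_, ?_, ?_⟩
        · have h2 := K4.contr x
          split_ifs at * <;> omega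
        · have : g 1 = 2 * (hE (ap τ 0)) := by
            have := asmF_true_odd (⇑(hE * ap τ)) (⇑(ap σ * hO)) 0
            rw [hg, asm_apply]
            simpa using this
          rw [this, hO', hO'', dblE_insert]
          ext z; simp only [Finset.mem_insert, Finset.mem_union]; tauto
        · rw [hg, asm_mul_a]
          show asm false _ _ * _ = _
          rw [asm_false_mul_k]
          simp [mul_assoc]




theorem card_dbl (σ : Bool) (OE OO : Finset ℕ) :
    (dblE OE ∪ dblO σ OO).card = OE.card + OO.card := by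
  rw [Finset.card_union_of_disjoint]
  · congr 1
    · exact Finset.card_image_of_injective _ (fun x y h => by simpa using h)
    · refine Finset.card_image_of_injective _ (fun x y h => ?_)
      have : ap σ x = ap σ y := by
        have h' : 2 * ap σ x + 1 = 2 * ap σ y + 1 := h
        omega
      exact (ap σ).injective this
  · rw [Finset.disjoint_left]
    intro z hz hz'
    simp only [dblE, dblO, Finset.mem_image] at hz hz'
    obtain ⟨u, _, hu⟩ := hz
    obtain ⟨v, _, hv⟩ := hz'
    omega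

/-- assembling pairs -/
noncomputable def Phi (s σ τ : Bool) (p q : Finset ℕ × Equiv.Perm ℕ) :
    Finset ℕ × Equiv.Perm ℕ :=
  (dblE p.1 ∪ dblO σ q.1,
    asm s (if s then p.2 * ap τ else p.2) (if s then ap σ * q.2 else ap σ * q.2 * ap τ))

theorem few_finite (m : ℕ) :
    {p : Finset ℕ × Equiv.Perm ℕ | p.1.card ≤ m ∧ ∃ r, P r p.2 p.1}.Finite := by
  induction m with
  | zero =>
    convert Set.finite_empty
    ext ⟨O, g⟩
    simp only [Set.mem_ofPred_eq, Set.mem_empty_iff_false, iff_false, not_and, not_exists]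
    intro h r hP
    have := hP.mem
    rw [Nat.le_zero, Finset.card_eq_zero] at h
    rw [h] at this
    simp at this
  | succ m ih =>
    set F := {p : Finset ℕ × Equiv.Perm ℕ | p.1.card ≤ m ∧ ∃ r, P r p.2 p.1} with hF
    have h1 : (Set.range (fun x : K4 => (({0} : Finset ℕ), kP x))).Finite := Set.finite_range _
    have h2 : (⋃ (s : Bool) (σ : Bool) (τ : Bool),
        (fun pq : (Finset ℕ × Equiv.Perm ℕ) × (Finset ℕ × Equiv.Perm ℕ) =>
          Phi s σ τ pq.1 pq.2) '' (F ×ˢ F)).Finite := by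
      refine Set.finite_iUnion fun s => Set.finite_iUnion fun σ => Set.finite_iUnion fun τ => ?_
      exact (ih.prod ih).image _
    refine (h1.union h2).subset ?_
    rintro ⟨O, g⟩ ⟨hc, r, hP⟩
    obtain ⟨r', _, hA⟩ := hP.alt
    rcases hA.decomp with ⟨x, hx, hO, _⟩ | ⟨s, σ, τ, rE, rO, hE, hO, OE, OO, hPE, hPO, hw, hO', hg⟩
    · left
      exact ⟨x, by simp only at hx hO; rw [hx, hO]⟩
    · right
      simp only [Set.mem_iUnion, Set.mem_image, Set.mem_prod, Prod.exists]
      have hcE : 0 < OE.card := Finset.card_pos.mpr ⟨_, hPE.mem⟩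
      have hcO : 0 < OO.card := Finset.card_pos.mpr ⟨_, hPO.mem⟩
      have hcc := card_dbl σ OE OO
      simp only at hO' hg hc
      rw [hO', hcc] at hc
      refine ⟨s, σ, τ, OE, hE, OO, hO, ⟨⟨by show OE.card ≤ m; omega, rE, hPE⟩,
        ⟨by show OO.card ≤ m; omega, rO, hPO⟩⟩, ?_⟩
      simp only [Phi]
      rw [hO', hg]

theorem sites_step (A : ℝ) (hA : 0 ≤ A)
    (h : ∃ B : ℝ, ∀ r g O, P r g O → (O.card : ℝ) ≤ A * r + B) :
    ∃ B : ℝ, ∀ r g O, P r g O → (O.card : ℝ) ≤ (5 / 6 * A) * r + B := by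
  obtain ⟨B, hB⟩ := h
  refine ⟨max 1 (5 / 2 * A + 2 * B), fun r g O hP => ?_⟩
  obtain ⟨r', hr', hAl⟩ := hP.alt
  have hr'' : (r' : ℝ) ≤ r := by exact_mod_cast hr'
  rcases hAl.decomp with ⟨x, hx, hO, _⟩ | ⟨s, σ, τ, rE, rO, hE, hO, OE, OO, hPE, hPO, hw, hO', hg⟩
  · rw [hO]
    simp only [Finset.card_singleton, Nat.cast_one]
    have := le_max_left (1 : ℝ) (5 / 2 * A + 2 * B)
    have h0 : 0 ≤ 5 / 6 * A * r := by positivity
    linarith
  · rw [hO', card_dbl]
    have h1 := hB _ _ _ hPE
    have h2 := hB _ _ _ hPO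
    have h3 : 6 * ((rE : ℝ) + rO) ≤ 5 * (r' + 3) := by
      have : 6 * (rE + rO) ≤ 5 * (r' + 3) := by split_ifs at hw <;> omega
      exact_mod_cast this
    have h4 : A * ((rE : ℝ) + rO) ≤ A * (5 / 6 * (r + 3)) := by
      apply mul_le_mul_of_nonneg_left _ hA
      linarith
    have := le_max_right (1 : ℝ) (5 / 2 * A + 2 * B)
    push_cast
    nlinarith

theorem sites_sublinear (ε : ℝ) (hε : 0 < ε) :
    ∃ B : ℝ, ∀ r g O, P r g O → (O.card : ℝ) ≤ ε * r + B := by
  have key : ∀ i : ℕ, ∃ B : ℝ, ∀ r g O, P r g O → (O.card : ℝ) ≤ (5 / 6 : ℝ) ^ i * r + B := by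
    intro i
    induction i with
    | zero =>
      refine ⟨1, fun r g O hP => ?_⟩
      have : O.card ≤ r + 1 := by
        induction hP with
        | one => simp
        | kstep r g O x h ih => omega
        | astep r g O h ih =>
          have := Finset.card_insert_le (g 1) O
          omega
      simp only [pow_zero, one_mul]
      exact_mod_cast this
    | succ i ih =>
      have := sites_step _ (by positivity) ih
      simpa [pow_succ, mul_comm] using this
  obtain ⟨i, hi⟩ := exists_pow_lt_of_lt_one hε (show (5 / 6 : ℝ) < 1 by norm_num)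
  obtain ⟨B, hB⟩ := key i
  refine ⟨B, fun r g O hP => (hB r g O hP).trans ?_⟩
  have : (5 / 6 : ℝ) ^ i * r ≤ ε * r := mul_le_mul_of_nonneg_right hi.le (Nat.cast_nonneg r)
  linarith

/-- reachable pairs (subset of the sites, value) with weight at most r -/
def RS (r : ℕ) : Set (Finset ℕ × Equiv.Perm ℕ) :=
  {p | ∃ r' ≤ r, ∃ O, p.1 ⊆ O ∧ P r' p.2 O}

theorem RS_mono {r r' : ℕ} (h : r ≤ r') : RS r ⊆ RS r' := by
  rintro p ⟨k, hk, O, hO⟩
  exact ⟨k, hk.trans h, O, hO⟩

theorem P.last {r : ℕ} {g : Equiv.Perm ℕ} {O : Finset ℕ} (h : P r g O) :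
    (r = 0 ∧ g = 1 ∧ O = {0}) ∨
    (∃ r' < r, ∃ g' x, P r' g' O ∧ g = g' * kP x) ∨
    (∃ r' < r, ∃ g' O', P r' g' O' ∧ g = g' * aP ∧ O = insert (g' 1) O') := by
  induction h with
  | one => left; simp
  | kstep r g O x h ih =>
    by_cases hx : x = K4.e
    · subst hx
      simpa [kP_e, K4.wt] using ih
    · right; left
      refine ⟨r, ?_, g, x, h, rfl⟩
      have : 0 < K4.wt x := by cases x <;> simp_all [K4.wt]
      omega
  | astep r g O h ih =>
    right; right
    exact ⟨r, by omega, g, O, h, rfl, rfl⟩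

theorem RS_zero_subset : RS 0 ⊆ {((∅ : Finset ℕ), (1 : Equiv.Perm ℕ)), ({0}, 1)} := by
  rintro ⟨Y, g⟩ ⟨r', hr', O, hY, hP⟩
  rcases hP.last with ⟨_, hg, hO⟩ | ⟨k, hk, _⟩ | ⟨k, hk, _⟩
  · simp only at hg hY
    rw [hO] at hY
    rcases Finset.subset_singleton_iff.mp hY with h | h
    · left; rw [h, hg]
    · right; rw [h, hg]; rfl
  · omega
  · omega

theorem RS_succ_subset (r : ℕ) :
    RS (r + 1) ⊆ RS r ∪ ((fun q : (Finset ℕ × Equiv.Perm ℕ) × K4 => (q.1.1, q.1.2 * kP q.2)) ''
        (RS r ×ˢ Set.univ)) ∪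
      ((fun q : (Finset ℕ × Equiv.Perm ℕ) × Bool =>
        (if q.2 then insert (q.1.2 1) q.1.1 else q.1.1, q.1.2 * aP)) ''
        (RS r ×ˢ Set.univ)) := by
  rintro ⟨Y, g⟩ ⟨r', hr', O, hY, hP⟩
  simp only at hY hP
  rcases hP.last with ⟨h0, hg, hO⟩ | ⟨k, hk, g', x, hP', hg⟩ | ⟨k, hk, g', O', hP', hg, hO⟩
  · left; left
    exact ⟨r', by omega, O, hY, hP⟩
  · left; right
    exact ⟨((Y, g'), x), ⟨⟨k, by omega, O, hY, hP'⟩, trivial⟩, by simp [hg]⟩
  · right
    by_cases hm : g' 1 ∈ Y
    · refine ⟨((Y.erase (g' 1), g'), true), ⟨⟨k, by omega, O', ?_, hP'⟩, trivial⟩, ?_⟩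
      · intro z hz
        simp only [Finset.mem_erase] at hz
        have := hY hz.2
        rw [hO, Finset.mem_insert] at this
        tauto
      · simp [hg, Finset.insert_erase hm]
    · refine ⟨((Y, g'), false), ⟨⟨k, by omega, O', ?_, hP'⟩, trivial⟩, ?_⟩
      · intro z hz
        simp only at hz
        have := hY hz
        rw [hO, Finset.mem_insert] at this
        rcases this with h | h
        · rw [h] at hz; contradiction
        · exact h
      · simp [hg]

theorem RS_finite (r : ℕ) : (RS r).Finite := by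
  induction r with
  | zero => exact Set.Finite.subset (by simp) RS_zero_subset
  | succ r ih =>
    refine Set.Finite.subset ?_ (RS_succ_subset r)
    exact (ih.union ((ih.prod Set.finite_univ).image _)).union
      ((ih.prod Set.finite_univ).image _)

theorem RS_card (r : ℕ) : (RS r).ncard ≤ 2 * 7 ^ r := by
  induction r with
  | zero =>
    refine (Set.ncard_le_ncard RS_zero_subset (by simp)).trans ?_
    exact (Set.ncard_insert_le _ _).trans (by simp)
  | succ r ih =>
    have hf := RS_finite r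
    refine (Set.ncard_le_ncard (RS_succ_subset r) ?_).trans ?_
    · exact (hf.union ((hf.prod Set.finite_univ).image _)).union
        ((hf.prod Set.finite_univ).image _)
    · refine (Set.ncard_union_le _ _).trans ?_
      have h1 := Set.ncard_union_le (RS r) ((fun q : (Finset ℕ × Equiv.Perm ℕ) × K4 =>
        (q.1.1, q.1.2 * kP q.2)) '' (RS r ×ˢ Set.univ))
      have h2 : ((fun q : (Finset ℕ × Equiv.Perm ℕ) × K4 =>
        (q.1.1, q.1.2 * kP q.2)) '' (RS r ×ˢ Set.univ)).ncard ≤ (RS r).ncard * 4 := by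
        refine (Set.ncard_image_le (hf.prod Set.finite_univ)).trans ?_
        rw [Set.ncard_prod, Set.ncard_univ]
        have : Nat.card K4 = 4 := by rw [Nat.card_eq_fintype_card]; rfl
        rw [this]
      have h3 : ((fun q : (Finset ℕ × Equiv.Perm ℕ) × Bool =>
        (if q.2 then insert (q.1.2 1) q.1.1 else q.1.1, q.1.2 * aP)) ''
        (RS r ×ˢ Set.univ)).ncard ≤ (RS r).ncard * 2 := by
        refine (Set.ncard_image_le (hf.prod Set.finite_univ)).trans ?_
        rw [Set.ncard_prod, Set.ncard_univ]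
        have : Nat.card Bool = 2 := by rw [Nat.card_eq_fintype_card]; rfl
        rw [this]
      calc _ ≤ _ := Nat.add_le_add h1 h3
        _ ≤ (RS r).ncard + (RS r).ncard * 4 + (RS r).ncard * 2 := by omega
        _ = 7 * (RS r).ncard := by ring
        _ ≤ 7 * (2 * 7 ^ r) := Nat.mul_le_mul_left _ ih
        _ = 2 * 7 ^ (r + 1) := by ring




open Classical in
/-- the reachable pairs as a finset -/
noncomputable def RF (r : ℕ) : Finset (Finset ℕ × Equiv.Perm ℕ) := (RS_finite r).toFinset

theorem mem_RF {r : ℕ} {p : Finset ℕ × Equiv.Perm ℕ} : p ∈ RF r ↔ p ∈ RS r := by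
  simp [RF]

theorem RF_card (r : ℕ) : (RF r).card ≤ 2 * 7 ^ r := by
  have := RS_card r
  rwa [Set.ncard_eq_toFinset_card _ (RS_finite r)] at this

/-- admissible pairs of weights -/
def prs (r : ℕ) : Finset (ℕ × ℕ) :=
  ((Finset.range (r + 4)) ×ˢ (Finset.range (r + 4))).filter
    (fun q => 6 * (q.1 + q.2) ≤ 5 * (r + 3))

theorem RF_rec (r : ℕ) :
    (RF r).card ≤ 8 + ∑ q ∈ prs r, 8 * ((RF q.1).card * (RF q.2).card) := by
  classical
  set Bf : Finset (Finset ℕ × Equiv.Perm ℕ) :=
    (Finset.univ : Finset (Bool × K4)).image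
      (fun q => (if q.1 then {0} else ∅, kP q.2)) with hBf
  set Cf : Finset (Finset ℕ × Equiv.Perm ℕ) :=
    (prs r).biUnion (fun q => (Finset.univ : Finset (Bool × Bool × Bool)).biUnion
      (fun b => (RF q.1 ×ˢ RF q.2).image (fun pq => Phi b.1 b.2.1 b.2.2 pq.1 pq.2))) with hCf
  have hsub : RF r ⊆ Bf ∪ Cf := by
    rintro ⟨Y, g⟩ hm
    rw [mem_RF] at hm
    obtain ⟨r', hr', O, hY, hP⟩ := hm
    simp only at hY hP
    obtain ⟨r'', hr'', hA⟩ := hP.alt
    rw [Finset.mem_union]
    rcases hA.decomp with ⟨x, hx, hO, _⟩ |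
      ⟨s, σ, τ, rE, rO, hE, hO, OE, OO, hPE, hPO, hw, hO', hg⟩
    · left
      rw [hBf, Finset.mem_image]
      rw [hO] at hY
      rcases Finset.subset_singleton_iff.mp hY with h | h
      · exact ⟨(false, x), Finset.mem_univ _, by simp [h, hx]⟩
      · exact ⟨(true, x), Finset.mem_univ _, by simp [h, hx]⟩
    · right
      have hw' : 6 * (rE + rO) ≤ 5 * (r + 3) := by split_ifs at hw <;> omega
      rw [hCf, Finset.mem_biUnion]
      refine ⟨(rE, rO), ?_, ?_⟩
      · simp only [prs, Finset.mem_filter, Finset.mem_product, Finset.mem_range]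
        refine ⟨⟨?_, ?_⟩, hw'⟩ <;> omega
      · rw [Finset.mem_biUnion]
        refine ⟨(s, σ, τ), Finset.mem_univ _, ?_⟩
        rw [Finset.mem_image]
        refine ⟨((OE.filter (fun m => 2 * m ∈ Y), hE),
          (OO.filter (fun m => 2 * ap σ m + 1 ∈ Y), hO)), ?_, ?_⟩
        · rw [Finset.mem_product]
          refine ⟨mem_RF.mpr ⟨rE, le_refl _, OE, Finset.filter_subset _ _, hPE⟩,
            mem_RF.mpr ⟨rO, le_refl _, OO, Finset.filter_subset _ _, hPO⟩⟩
        · simp only [Phi]
          rw [hg]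
          congr 1
          ext z
          simp only [dblE, dblO, Finset.mem_union, Finset.mem_image, Finset.mem_filter]
          constructor
          · rintro (⟨m, ⟨_, h⟩, rfl⟩ | ⟨m, ⟨_, h⟩, rfl⟩) <;> exact h
          · intro hz
            have h1 := hY hz
            rw [hO'] at h1
            simp only [dblE, dblO, Finset.mem_union, Finset.mem_image] at h1
            rcases h1 with ⟨m, h, rfl⟩ | ⟨m, h, rfl⟩
            · exact Or.inl ⟨m, ⟨h, hz⟩, rfl⟩
            · exact Or.inr ⟨m, ⟨h, hz⟩, rfl⟩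
  refine (Finset.card_le_card hsub).trans ((Finset.card_union_le _ _).trans ?_)
  refine Nat.add_le_add ?_ ?_
  · refine Finset.card_image_le.trans ?_
    rw [Finset.card_univ]
    decide
  · refine Finset.card_biUnion_le.trans (Finset.sum_le_sum fun q _ => ?_)
    refine Finset.card_biUnion_le.trans ?_
    refine (Finset.sum_le_card_nsmul _ _ ((RF q.1).card * (RF q.2).card) ?_).trans ?_
    · intro b _
      refine Finset.card_image_le.trans ?_
      rw [Finset.card_product]
    · rw [Finset.card_univ]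
      simp

theorem RF_step (t : ℝ) (ht : 0 < t)
    (h : ∃ A : ℝ, ∀ r : ℕ, ((RF r).card : ℝ) ≤ A * Real.exp (t * r)) :
    ∃ A : ℝ, ∀ r : ℕ, ((RF r).card : ℝ) ≤ A * Real.exp ((11 / 12 * t) * r) := by
  obtain ⟨A, hA⟩ := h
  have hA0 : 0 ≤ A := by
    have := hA 0
    simp only [Nat.cast_zero, mul_zero, Real.exp_zero, mul_one] at this
    exact (Nat.cast_nonneg _).trans this
  -- (r+4)^2 ≤ (288/t^2) exp(t (r+4)/12)
  have hsq : ∀ r : ℕ, ((r : ℝ) + 4) ^ 2 ≤ 288 / t ^ 2 * Real.exp (t * (r + 4) / 12) := by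
    intro r
    have h1 : (t * ((r : ℝ) + 4) / 12) ^ 2 / 2 ≤ Real.exp (t * (r + 4) / 12) := by
      have h0 : 0 ≤ t * ((r : ℝ) + 4) / 12 := by positivity
      have := Real.quadratic_le_exp_of_nonneg h0
      linarith
    have h2 : ((r : ℝ) + 4) ^ 2 = 288 / t ^ 2 * ((t * ((r : ℝ) + 4) / 12) ^ 2 / 2) := by
      field_simp
      ring
    rw [h2]
    exact mul_le_mul_of_nonneg_left h1 (by positivity)
  refine ⟨8 + 8 * A ^ 2 * (288 / t ^ 2) * Real.exp (3 * t), fun r => ?_⟩
  have hrec : ((RF r).card : ℝ) ≤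
      8 + ∑ q ∈ prs r, 8 * (((RF q.1).card : ℝ) * ((RF q.2).card : ℝ)) := by
    exact_mod_cast RF_rec r
  have hterm : ∀ q ∈ prs r, 8 * (((RF q.1).card : ℝ) * ((RF q.2).card : ℝ)) ≤
      8 * A ^ 2 * Real.exp (t * (5 / 6 * (r + 3))) := by
    intro q hq
    simp only [prs, Finset.mem_filter] at hq
    have h1 := hA q.1
    have h2 := hA q.2
    have h3 : ((RF q.1).card : ℝ) * ((RF q.2).card : ℝ) ≤
        (A * Real.exp (t * q.1)) * (A * Real.exp (t * q.2)) :=
      mul_le_mul h1 h2 (Nat.cast_nonneg _) ((Nat.cast_nonneg _).trans h1)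
    have h4 : (A * Real.exp (t * q.1)) * (A * Real.exp (t * q.2)) =
        A ^ 2 * Real.exp (t * (q.1 + q.2)) := by
      rw [mul_add, Real.exp_add]; ring
    have h5 : Real.exp (t * (q.1 + q.2)) ≤ Real.exp (t * (5 / 6 * (r + 3))) := by
      apply Real.exp_le_exp.mpr
      apply mul_le_mul_of_nonneg_left _ ht.le
      have : 6 * ((q.1 : ℝ) + q.2) ≤ 5 * (r + 3) := by exact_mod_cast hq.2
      linarith
    calc 8 * (((RF q.1).card : ℝ) * ((RF q.2).card : ℝ))
        ≤ 8 * (A ^ 2 * Real.exp (t * (q.1 + q.2))) := by rw [← h4]; linarith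
      _ ≤ 8 * (A ^ 2 * Real.exp (t * (5 / 6 * (r + 3)))) := by
        apply mul_le_mul_of_nonneg_left _ (by norm_num)
        exact mul_le_mul_of_nonneg_left h5 (by positivity)
      _ = _ := by ring
  have hcard : ((prs r).card : ℝ) ≤ ((r : ℝ) + 4) ^ 2 := by
    have : (prs r).card ≤ (r + 4) * (r + 4) := by
      refine (Finset.card_filter_le _ _).trans ?_
      rw [Finset.card_product]; simp
    have h' : ((prs r).card : ℝ) ≤ ((r : ℝ) + 4) * ((r : ℝ) + 4) := by exact_mod_cast this
    rw [sq]; exact h'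
  have hsum : ∑ q ∈ prs r, 8 * (((RF q.1).card : ℝ) * ((RF q.2).card : ℝ)) ≤
      ((r : ℝ) + 4) ^ 2 * (8 * A ^ 2 * Real.exp (t * (5 / 6 * (r + 3)))) := by
    refine (Finset.sum_le_card_nsmul _ _ _ hterm).trans ?_
    rw [nsmul_eq_mul]
    exact mul_le_mul_of_nonneg_right hcard (by positivity)
  have hfin : ((r : ℝ) + 4) ^ 2 * (8 * A ^ 2 * Real.exp (t * (5 / 6 * (r + 3)))) ≤
      8 * A ^ 2 * (288 / t ^ 2) * Real.exp (3 * t) * Real.exp ((11 / 12 * t) * r) := by
    calc ((r : ℝ) + 4) ^ 2 * (8 * A ^ 2 * Real.exp (t * (5 / 6 * (r + 3))))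
        ≤ (288 / t ^ 2 * Real.exp (t * (r + 4) / 12)) *
            (8 * A ^ 2 * Real.exp (t * (5 / 6 * (r + 3)))) :=
          mul_le_mul_of_nonneg_right (hsq r) (by positivity)
      _ = 8 * A ^ 2 * (288 / t ^ 2) *
            (Real.exp (t * (r + 4) / 12) * Real.exp (t * (5 / 6 * (r + 3)))) := by ring
      _ ≤ 8 * A ^ 2 * (288 / t ^ 2) * (Real.exp (3 * t) * Real.exp ((11 / 12 * t) * r)) := by
          apply mul_le_mul_of_nonneg_left _ (by positivity)
          rw [← Real.exp_add, ← Real.exp_add]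
          apply Real.exp_le_exp.mpr
          nlinarith
      _ = _ := by ring
  have h8 : (8 : ℝ) ≤ 8 * Real.exp ((11 / 12 * t) * r) := by
    have : 1 ≤ Real.exp ((11 / 12 * t) * r) := Real.one_le_exp (by positivity)
    linarith
  calc ((RF r).card : ℝ) ≤ 8 + ((r : ℝ) + 4) ^ 2 * (8 * A ^ 2 * Real.exp (t * (5 / 6 * (r + 3)))) := by
        linarith
    _ ≤ 8 * Real.exp ((11 / 12 * t) * r) +
        8 * A ^ 2 * (288 / t ^ 2) * Real.exp (3 * t) * Real.exp ((11 / 12 * t) * r) := by
        linarith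
    _ = _ := by ring

theorem RF_subexp (t : ℝ) (ht : 0 < t) :
    ∃ A : ℝ, ∀ r : ℕ, ((RF r).card : ℝ) ≤ A * Real.exp (t * r) := by
  have key : ∀ i : ℕ, ∃ A : ℝ, ∀ r : ℕ,
      ((RF r).card : ℝ) ≤ A * Real.exp (((11 / 12 : ℝ) ^ i * Real.log 7) * r) := by
    intro i
    induction i with
    | zero =>
      refine ⟨2, fun r => ?_⟩
      have h1 : ((RF r).card : ℝ) ≤ 2 * 7 ^ r := by exact_mod_cast RF_card r
      have h2 : Real.exp ((11 / 12 : ℝ) ^ 0 * Real.log 7 * r) = 7 ^ r := by
        rw [pow_zero, one_mul, mul_comm, Real.exp_nat_mul, Real.exp_log (by norm_num)]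
      rw [h2]; exact h1
    | succ i ih =>
      have := RF_step ((11 / 12 : ℝ) ^ i * Real.log 7)
        (by have := Real.log_pos (show (1 : ℝ) < 7 by norm_num); positivity) ih
      obtain ⟨A, hA⟩ := this
      refine ⟨A, fun r => ?_⟩
      have h := hA r
      have : (11 / 12 : ℝ) ^ (i + 1) * Real.log 7 = 11 / 12 * ((11 / 12 : ℝ) ^ i * Real.log 7) := by
        rw [pow_succ]; ring
      rw [this]; exact h
  have hlog := Real.log_pos (show (1 : ℝ) < 7 by norm_num)
  obtain ⟨i, hi⟩ := exists_pow_lt_of_lt_one (show 0 < t / Real.log 7 by positivity)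
    (show (11 / 12 : ℝ) < 1 by norm_num)
  obtain ⟨A, hA⟩ := key i
  have hA0 : 0 ≤ A := by
    have := hA 0
    simp only [Nat.cast_zero, mul_zero, Real.exp_zero, mul_one] at this
    exact (Nat.cast_nonneg _).trans this
  refine ⟨A, fun r => (hA r).trans ?_⟩
  apply mul_le_mul_of_nonneg_left _ hA0
  apply Real.exp_le_exp.mpr
  apply mul_le_mul_of_nonneg_right _ (Nat.cast_nonneg r)
  rw [lt_div_iff₀ hlog] at hi
  exact hi.le




/-- the permutational wreath product (restricted) of ℤ with the permutations of ℕ -/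
@[ext] structure WG where
  f : ℕ →₀ ℤ
  g : Equiv.Perm ℕ

namespace WG

noncomputable instance : Mul WG := ⟨fun p q => ⟨p.f + q.f.equivMapDomain p.g, p.g * q.g⟩⟩
noncomputable instance : One WG := ⟨⟨0, 1⟩⟩
noncomputable instance : Inv WG := ⟨fun p => ⟨-(p.f.equivMapDomain p.g⁻¹), p.g⁻¹⟩⟩

theorem mul_f (p q : WG) : (p * q).f = p.f + q.f.equivMapDomain p.g := rfl
theorem mul_g (p q : WG) : (p * q).g = p.g * q.g := rfl
theorem one_f : (1 : WG).f = 0 := rfl
theorem one_g : (1 : WG).g = 1 := rfl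
theorem inv_f (p : WG) : (p⁻¹).f = -(p.f.equivMapDomain p.g⁻¹) := rfl
theorem inv_g (p : WG) : (p⁻¹).g = p.g⁻¹ := rfl

noncomputable instance : Group WG := Group.ofLeftAxioms
  (fun p q r => by
    apply WG.ext
    · ext x
      simp [mul_f, mul_g, Finsupp.equivMapDomain_apply, add_assoc]
      rfl
    · simp [mul_g, mul_assoc])
  (fun p => by
    apply WG.ext
    · ext x
      simp [mul_f, one_f, one_g, Finsupp.equivMapDomain_apply]
      rfl
    · simp [mul_g, one_g])
  (fun p => by
    apply WG.ext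
    · ext x
      simp [mul_f, inv_f, inv_g, one_f]
    · simp [mul_g, inv_g, one_g])

end WG

/-- the l1 norm -/
def l1 (f : ℕ →₀ ℤ) : ℕ := ∑ y ∈ f.support, (f y).natAbs

theorem l1_eq (f : ℕ →₀ ℤ) (s : Finset ℕ) (h : f.support ⊆ s) :
    l1 f = ∑ y ∈ s, (f y).natAbs := by
  unfold l1
  refine Finset.sum_subset h fun x _ hx => ?_
  rw [Finsupp.notMem_support_iff] at hx
  simp [hx]

theorem l1_zero : l1 0 = 0 := by simp [l1]

theorem l1_add_single (f : ℕ →₀ ℤ) (y : ℕ) (t : ℤ) :
    l1 (f + Finsupp.single y t) ≤ l1 f + t.natAbs := by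
  have h1 : (f + Finsupp.single y t).support ⊆ insert y f.support := by
    intro z hz
    rw [Finset.mem_insert]
    by_contra hcon
    push Not at hcon
    rw [Finsupp.mem_support_iff] at hz
    apply hz
    rw [Finsupp.add_apply, Finsupp.single_apply, if_neg (fun h => hcon.1 h.symm)]
    rw [Finsupp.notMem_support_iff.mp hcon.2, add_zero]
  rw [l1_eq _ _ h1, l1_eq f (insert y f.support) (Finset.subset_insert _ _)]
  calc ∑ z ∈ insert y f.support, ((f + Finsupp.single y t) z).natAbs
      ≤ ∑ z ∈ insert y f.support, ((f z).natAbs + (if z = y then t.natAbs else 0)) := by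
        refine Finset.sum_le_sum fun z _ => ?_
        rw [Finsupp.add_apply, Finsupp.single_apply]
        by_cases h : z = y
        · subst h; simp [Int.natAbs_add_le]
        · have h' : ¬ y = z := fun h' => h h'.symm
          simp [h, h']
    _ = ∑ z ∈ insert y f.support, (f z).natAbs + t.natAbs := by
        rw [Finset.sum_add_distrib]
        congr 1
        rw [Finset.sum_ite_eq' (insert y f.support) y]
        simp

theorem l1_erase (f : ℕ →₀ ℤ) (y : ℕ) : l1 (f.erase y) + (f y).natAbs = l1 f := by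
  have h1 : (f.erase y).support ⊆ insert y f.support := by
    rw [Finsupp.support_erase]
    exact (Finset.erase_subset _ _).trans (Finset.subset_insert _ _)
  rw [l1_eq _ _ h1, l1_eq f (insert y f.support) (Finset.subset_insert _ _)]
  have : ∑ z ∈ insert y f.support, (f z).natAbs =
      ∑ z ∈ insert y f.support, (((f.erase y) z).natAbs + (if z = y then (f y).natAbs else 0)) := by
    refine Finset.sum_congr rfl fun z _ => ?_
    by_cases h : z = y
    · subst h; simp
    · simp [h, Finsupp.erase_ne h]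
  rw [this, Finset.sum_add_distrib, Finset.sum_ite_eq' (insert y f.support) y]
  simp

/-- unit length paths -/
inductive U : ℕ → Equiv.Perm ℕ → Finset ℕ → Prop
  | one : U 0 1 {0}
  | kstep (n : ℕ) (g : Equiv.Perm ℕ) (O : Finset ℕ) (x : K4) :
      U n g O → U (n + 1) (g * kP x) O
  | astep (n : ℕ) (g : Equiv.Perm ℕ) (O : Finset ℕ) :
      U n g O → U (n + 1) (g * aP) (insert (g 1) O)

theorem U.mem {n : ℕ} {g : Equiv.Perm ℕ} {O : Finset ℕ} (h : U n g O) : g 0 ∈ O := by
  induction h with
  | one => simp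
  | kstep r g O x h ih => simpa [klN_zero] using ih
  | astep r g O h ih => simp [aN_zero]

theorem U.toP {n : ℕ} {g : Equiv.Perm ℕ} {O : Finset ℕ} (h : U n g O) :
    ∃ r ≤ 3 * n, P r g O := by
  induction h with
  | one => exact ⟨0, le_refl _, P.one⟩
  | kstep n g O x h ih =>
    obtain ⟨r, hr, hP⟩ := ih
    refine ⟨_, ?_, P.kstep r g O x hP⟩
    have : K4.wt x ≤ 3 := by cases x <;> decide
    omega
  | astep n g O h ih =>
    obtain ⟨r, hr, hP⟩ := ih
    exact ⟨_, by omega, P.astep r g O hP⟩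

/-- generators -/
noncomputable def gA : WG := ⟨0, aP⟩
/-- generators -/
noncomputable def gK (x : K4) : WG := ⟨0, kP x⟩
/-- lamp elements -/
noncomputable def gD (t : ℤ) : WG := ⟨Finsupp.single 0 t, 1⟩

theorem mul_gA (w : WG) : w * gA = ⟨w.f, w.g * aP⟩ := by
  apply WG.ext
  · ext x; simp [WG.mul_f, gA]
  · rfl

theorem mul_gK (w : WG) (x : K4) : w * gK x = ⟨w.f, w.g * kP x⟩ := by
  apply WG.ext
  · ext x; simp [WG.mul_f, gK]
  · rfl

theorem mul_gD (w : WG) (t : ℤ) : w * gD t = ⟨w.f + Finsupp.single (w.g 0) t, w.g⟩ := by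
  apply WG.ext
  · simp [WG.mul_f, gD]
  · simp [WG.mul_g, gD]

theorem gA_inv : gA⁻¹ = gA := by
  rw [inv_eq_iff_mul_eq_one, mul_gA]
  apply WG.ext
  · rfl
  · exact aP_aP

theorem gK_inv (x : K4) : (gK x)⁻¹ = gK x := by
  rw [inv_eq_iff_mul_eq_one, mul_gK]
  apply WG.ext
  · rfl
  · show kP x * kP x = 1
    rw [kP_mul, K4.mul_self, kP_e]

theorem gD_zero : gD 0 = 1 := by
  apply WG.ext <;> simp [gD, WG.one_f, WG.one_g]

theorem gD_mul (s t : ℤ) : gD s * gD t = gD (s + t) := by
  rw [mul_gD]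
  apply WG.ext
  · simp [gD]
  · rfl

theorem gD_inv (t : ℤ) : (gD t)⁻¹ = gD (-t) := by
  rw [inv_eq_iff_mul_eq_one, gD_mul]; simp [gD_zero]

open Classical in
/-- generating set -/
noncomputable def S0 : Finset WG := {gA, gK K4.b, gK K4.c, gK K4.d, gD 1}

open Classical in
/-- symmetrized generating set with identity -/
noncomputable def T0 : Finset WG := S0 ∪ S0⁻¹ ∪ {1}

theorem mem_T0 (w : WG) : w ∈ T0 ↔
    w = 1 ∨ w = gA ∨ w = gK K4.b ∨ w = gK K4.c ∨ w = gK K4.d ∨ w = gD 1 ∨ w = gD (-1) := by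
  classical
  simp only [T0, S0, Finset.mem_union, Finset.mem_inv', Finset.mem_insert, Finset.mem_singleton]
  have h1 : w⁻¹ = gA ↔ w = gA := by rw [inv_eq_iff_eq_inv, gA_inv]
  have h2 : ∀ x, w⁻¹ = gK x ↔ w = gK x := fun x => by rw [inv_eq_iff_eq_inv, gK_inv]
  have h3 : w⁻¹ = gD 1 ↔ w = gD (-1) := by rw [inv_eq_iff_eq_inv, gD_inv]
  rw [h1, h2, h2, h2, h3]
  tauto

theorem one_mem_T0 : (1 : WG) ∈ T0 := by rw [mem_T0]; left; rfl

open Classical in
/-- balls -/
noncomputable def Bl (n : ℕ) : Finset WG := T0 ^ n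

theorem Bl_mono {m n : ℕ} (h : m ≤ n) : Bl m ⊆ Bl n := by
  classical
  exact Finset.pow_subset_pow_right one_mem_T0 h

theorem Bl_add (m n : ℕ) : (Bl (m + n)).card ≤ (Bl m).card * (Bl n).card := by
  classical
  unfold Bl
  rw [pow_add]
  exact Finset.card_mul_le

theorem mul_mem_Bl {m n : ℕ} {u v : WG} (hu : u ∈ Bl m) (hv : v ∈ Bl n) : u * v ∈ Bl (m + n) := by
  classical
  unfold Bl
  rw [pow_add]
  exact Finset.mul_mem_mul hu hv

theorem mem_Bl_one {w : WG} (h : w ∈ T0) : w ∈ Bl 1 := by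
  classical
  unfold Bl; rwa [pow_one]

theorem gD_mem (n : ℕ) (t : ℤ) (h : t.natAbs = n) : gD t ∈ Bl n := by
  classical
  induction n generalizing t with
  | zero =>
    have : t = 0 := Int.natAbs_eq_zero.mp h
    subst this
    rw [gD_zero]; simp [Bl]
  | succ n ih =>
    rcases lt_or_gt_of_ne (show t ≠ 0 by rintro rfl; simp at h) with ht | ht
    · have h1 := ih (t + 1) (by omega)
      have : gD t = gD (t + 1) * gD (-1) := by rw [gD_mul]; ring_nf
      rw [this]
      exact mul_mem_Bl h1 (mem_Bl_one (by rw [mem_T0]; tauto))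
    · have h1 := ih (t - 1) (by omega)
      have : gD t = gD (t - 1) * gD 1 := by rw [gD_mul]; ring_nf
      rw [this]
      exact mul_mem_Bl h1 (mem_Bl_one (by rw [mem_T0]; tauto))

theorem mem_Bl_of_U {k : ℕ} {g : Equiv.Perm ℕ} {O : Finset ℕ} (h : U k g O) :
    ∀ f : ℕ →₀ ℤ, f.support ⊆ O → (⟨f, g⟩ : WG) ∈ Bl (k + l1 f) := by
  induction h with
  | one =>
    intro f hf
    have hf' : f = Finsupp.single 0 (f 0) := by
      ext z
      by_cases hz : z = 0
      · subst hz; simp
      · rw [Finsupp.single_apply, if_neg (fun h => hz h.symm)]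
        by_contra hcon
        have := hf (Finsupp.mem_support_iff.mpr hcon)
        simp at this; exact hz this
    have h1 : l1 f = (f 0).natAbs := by
      rw [l1_eq f {0} hf]; simp
    rw [h1, zero_add]
    have : (⟨f, 1⟩ : WG) = gD (f 0) := by
      unfold gD; rw [← hf']
    rw [this]
    exact gD_mem _ _ rfl
  | kstep n g O x h ih =>
    intro f hf
    have h1 := ih f hf
    have h2 : (⟨f, g * kP x⟩ : WG) = ⟨f, g⟩ * gK x := by rw [mul_gK]
    rw [h2, show n + 1 + l1 f = (n + l1 f) + 1 by ring]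
    refine mul_mem_Bl h1 (mem_Bl_one ?_)
    rw [mem_T0]
    cases x
    · left; unfold gK; rw [kP_e]; rfl
    all_goals tauto
  | astep n g O h ih =>
    intro f hf
    have h0 : (f.erase (g 1)).support ⊆ O := by
      rw [Finsupp.support_erase]
      intro z hz
      rw [Finset.mem_erase] at hz
      have := hf hz.2
      rw [Finset.mem_insert] at this
      tauto
    have h1 := ih _ h0
    have h2 : (⟨f, g * aP⟩ : WG) = ⟨f.erase (g 1), g⟩ * gA * gD (f (g 1)) := by
      rw [mul_gA, mul_gD]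
      apply WG.ext
      · simp [aN_zero, Finsupp.erase_add_single]
      · rfl
    rw [h2, show n + 1 + l1 f = (n + l1 (f.erase (g 1))) + 1 + (f (g 1)).natAbs by
      rw [← l1_erase f (g 1)]; ring]
    refine mul_mem_Bl (mul_mem_Bl h1 (mem_Bl_one ?_)) (gD_mem _ _ rfl)
    rw [mem_T0]; tauto

theorem mem_Bl_iff (n : ℕ) (w : WG) :
    w ∈ Bl n ↔ ∃ k O, U k w.g O ∧ w.f.support ⊆ O ∧ k + l1 w.f ≤ n := by
  classical
  constructor
  · intro h
    induction n generalizing w with
    | zero =>
      simp only [Bl, pow_zero, Finset.mem_one] at h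
      subst h
      exact ⟨0, {0}, U.one, by simp [WG.one_f], by simp [WG.one_f, l1_zero]⟩
    | succ n ih =>
      unfold Bl at h
      rw [pow_succ, Finset.mem_mul] at h
      obtain ⟨v, hv, t, ht, rfl⟩ := h
      obtain ⟨k, O, hU, hs, hk⟩ := ih v hv
      rw [mem_T0] at ht
      have hK : ∀ x, ∃ k O, U k (v * gK x).g O ∧ (v * gK x).f.support ⊆ O ∧
          k + l1 (v * gK x).f ≤ n + 1 := by
        intro x
        rw [mul_gK]
        exact ⟨k + 1, O, U.kstep _ _ _ x hU, hs, by simp only; omega⟩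
      have hD : ∀ t : ℤ, t.natAbs ≤ 1 → ∃ k O, U k (v * gD t).g O ∧
          (v * gD t).f.support ⊆ O ∧ k + l1 (v * gD t).f ≤ n + 1 := by
        intro t ht
        rw [mul_gD]
        refine ⟨k, O, hU, ?_, ?_⟩
        · intro z hz
          have := Finsupp.support_add hz
          rw [Finset.mem_union] at this
          rcases this with h | h
          · exact hs h
          · have := Finsupp.support_single_subset h
            rw [Finset.mem_singleton] at this
            rw [this]; exact hU.mem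
        · have := l1_add_single v.f (v.g 0) t
          simp only
          omega
      rcases ht with rfl | rfl | rfl | rfl | rfl | rfl | rfl
      · rw [mul_one]; exact ⟨k, O, hU, hs, by omega⟩
      · rw [mul_gA]
        exact ⟨k + 1, _, U.astep _ _ _ hU, hs.trans (Finset.subset_insert _ _), by
          simp only; omega⟩
      · exact hK _
      · exact hK _
      · exact hK _
      · exact hD 1 (by simp)
      · exact hD (-1) (by simp)
  · rintro ⟨k, O, hU, hs, hk⟩
    exact Bl_mono hk (mem_Bl_of_U hU w.f hs)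




theorem sum_choose_range (ℓ L : ℕ) : ∑ i ∈ Finset.range ℓ, i.choose L = ℓ.choose (L + 1) := by
  induction ℓ with
  | zero => simp
  | succ n ih => rw [Finset.sum_range_succ, ih, Nat.choose_succ_succ, add_comm]

theorem class_count (Y : Finset ℕ) : ∀ ℓ : ℕ, ∃ S : Finset (ℕ →₀ ℤ),
    (∀ f, f ∈ S ↔ f.support = Y ∧ l1 f ≤ ℓ) ∧ S.card = 2 ^ Y.card * ℓ.choose Y.card := by
  classical
  induction Y using Finset.induction_on with
  | empty =>
    intro ℓ
    refine ⟨{0}, fun f => ?_, by simp⟩
    rw [Finset.mem_singleton]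
    constructor
    · rintro rfl; simp [l1_zero]
    · rintro ⟨h, _⟩; exact Finsupp.support_eq_empty.mp h
  | insert y Y hy ih =>
    intro ℓ
    choose S hS hc using ih
    let z : ℕ × Bool → ℤ := fun q => if q.2 then ((q.1 : ℤ) + 1) else -((q.1 : ℤ) + 1)
    have hz : ∀ q, (z q).natAbs = q.1 + 1 := by
      rintro ⟨j, b⟩
      cases b <;> simp only [z] <;> simp <;> omega
    have hz0 : ∀ q, z q ≠ 0 := by
      intro q h
      have := hz q
      rw [h] at this
      simp at this
    have hzinj : ∀ q q', z q = z q' → q = q' := by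
      rintro ⟨j, b⟩ ⟨j', b'⟩ h
      cases b <;> cases b' <;> simp only [z] at h <;> simp at h ⊢ <;> omega
    have hval : ∀ (f : ℕ →₀ ℤ) (t : ℤ), f.support = Y → (f + Finsupp.single y t) y = t := by
      intro f t hf
      have : f y = 0 := by
        rw [← Finsupp.notMem_support_iff, hf]; exact hy
      simp [this]
    have her : ∀ (f : ℕ →₀ ℤ) (t : ℤ), f.support = Y → (f + Finsupp.single y t).erase y = f := by
      intro f t hf
      have h0 : f y = 0 := by
        rw [← Finsupp.notMem_support_iff, hf]; exact hy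
      ext x
      by_cases hx : x = y
      · subst hx; simp [h0]
      · have hx' : ¬ y = x := fun h => hx h.symm
        simp [Finsupp.erase_ne hx, hx']
    refine ⟨(Finset.range ℓ ×ˢ (Finset.univ : Finset Bool)).biUnion
      (fun q => (S (ℓ - (q.1 + 1))).image (fun f => f + Finsupp.single y (z q))), ?_, ?_⟩
    · intro f
      rw [Finset.mem_biUnion]
      constructor
      · rintro ⟨q, hq, hf⟩
        rw [Finset.mem_image] at hf
        obtain ⟨f0, hf0, rfl⟩ := hf
        rw [hS] at hf0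
        rw [Finset.mem_product, Finset.mem_range] at hq
        refine ⟨?_, ?_⟩
        · ext x
          rw [Finsupp.mem_support_iff, Finset.mem_insert, ← hf0.1, Finsupp.mem_support_iff]
          by_cases hx : x = y
          · subst hx
            rw [hval f0 (z q) hf0.1]
            simp [hz0 q]
          · have hx' : ¬ y = x := fun h => hx h.symm
            simp [Finsupp.single_apply, hx, hx']
        · have := l1_add_single f0 y (z q)
          rw [hz q] at this
          omega
      · rintro ⟨hsup, hl⟩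
        have hfy : f y ≠ 0 := by
          rw [← Finsupp.mem_support_iff, hsup]; exact Finset.mem_insert_self _ _
        have hle := l1_erase f y
        refine ⟨((f y).natAbs - 1, decide (0 < f y)), ?_, ?_⟩
        · rw [Finset.mem_product, Finset.mem_range]
          refine ⟨?_, Finset.mem_univ _⟩
          simp only
          omega
        · rw [Finset.mem_image]
          refine ⟨f.erase y, ?_, ?_⟩
          · rw [hS]
            refine ⟨?_, ?_⟩
            · rw [Finsupp.support_erase, hsup, Finset.erase_insert hy]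
            · simp only
              omega
          · have : z ((f y).natAbs - 1, decide (0 < f y)) = f y := by
              by_cases h : 0 < f y
              · simp only [z, h, decide_true, if_true]; omega
              · simp only [z, h, decide_false]
                simp only [Bool.false_eq_true, if_false]
                omega
            rw [this]
            exact Finsupp.erase_add_single _ _
    · rw [Finset.card_biUnion]
      · have h1 : ∀ q ∈ Finset.range ℓ ×ˢ (Finset.univ : Finset Bool),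
            ((S (ℓ - (q.1 + 1))).image (fun f => f + Finsupp.single y (z q))).card =
              2 ^ Y.card * (ℓ - 1 - q.1).choose Y.card := by
          intro q _
          rw [Finset.card_image_of_injective _ (add_left_injective _), hc]
          congr 2
          omega
        rw [Finset.sum_congr rfl h1, Finset.sum_product]
        simp only [Finset.sum_const, Finset.card_univ, Fintype.card_bool, smul_eq_mul]
        rw [Finset.card_insert_of_notMem hy]
        have h2 := Finset.sum_range_reflect (fun i => 2 * (2 ^ Y.card * i.choose Y.card)) ℓ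
        rw [h2, ← Finset.mul_sum, ← Finset.mul_sum, sum_choose_range]
        ring
      · intro q hq q' hq' hne
        rw [Function.onFun, Finset.disjoint_left]
        intro f hf hf'
        rw [Finset.mem_image] at hf hf'
        obtain ⟨f0, h0, rfl⟩ := hf
        obtain ⟨f1, h1, h2⟩ := hf'
        rw [hS] at h0 h1
        apply hne
        apply hzinj
        rw [← hval f0 (z q) h0.1, ← h2, hval f1 (z q') h1.1]

theorem choose_sphere (ℓ L k : ℕ) (hL : 1 ≤ L) (hk : 1 ≤ k) (h : k * L ≤ ℓ) :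
    k * (ℓ.choose L - (ℓ - 1).choose L) ≤ ℓ.choose L := by
  obtain ⟨ℓ', rfl⟩ : ∃ ℓ', ℓ = ℓ' + 1 := ⟨ℓ - 1, by
    have : 1 ≤ k * L := Nat.mul_pos hk hL
    omega⟩
  obtain ⟨L', rfl⟩ : ∃ L', L = L' + 1 := ⟨L - 1, by omega⟩
  have h1 : (ℓ' + 1).choose (L' + 1) - (ℓ' + 1 - 1).choose (L' + 1) = ℓ'.choose L' := by
    rw [Nat.choose_succ_succ, Nat.add_sub_cancel]; simp
  rw [h1]
  have h2 := Nat.add_one_mul_choose_eq ℓ' L'
  have h3 : (L' + 1) * (k * ℓ'.choose L') ≤ (L' + 1) * (ℓ' + 1).choose (L' + 1) := by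
    calc (L' + 1) * (k * ℓ'.choose L') = (k * (L' + 1)) * ℓ'.choose L' := by ring
      _ ≤ (ℓ' + 1) * ℓ'.choose L' := Nat.mul_le_mul_right _ h
      _ = (L' + 1) * (ℓ' + 1).choose (L' + 1) := by rw [h2]; ring
  exact Nat.le_of_mul_le_mul_left h3 (by omega)

theorem choose_one_step (N L k : ℕ) (h : N + 1 ≤ (k + 1) * L) :
    (k + 2) * N.choose L ≤ (k + 1) * (N + 1).choose L := by
  rcases lt_or_ge N L with hN | hN
  · rw [Nat.choose_eq_zero_of_lt hN]; simp
  · have h1 := Nat.choose_mul_succ_eq N L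
    have hpos : 0 < N + 1 - L := by omega
    apply Nat.le_of_mul_le_mul_right _ hpos
    have h2 : (k + 2) * (N + 1 - L) ≤ (k + 1) * (N + 1) := by
      zify [show L ≤ N + 1 by omega]
      have : ((N : ℤ) + 1) ≤ (k + 1) * L := by exact_mod_cast h
      nlinarith
    calc (k + 2) * N.choose L * (N + 1 - L) = ((k + 2) * (N + 1 - L)) * N.choose L := by ring
      _ ≤ ((k + 1) * (N + 1)) * N.choose L := Nat.mul_le_mul_right _ h2
      _ = (k + 1) * (N.choose L * (N + 1)) := by ring
      _ = (k + 1) * ((N + 1).choose L * (N + 1 - L)) := by rw [h1]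
      _ = (k + 1) * (N + 1).choose L * (N + 1 - L) := by ring

theorem choose_growth (ℓ L k : ℕ) (h : ℓ ≤ k * L) (J : ℕ) (hJ : J ≤ L) :
    (k + 2) ^ J * ℓ.choose L ≤ (k + 1) ^ J * (ℓ + J).choose L := by
  induction J with
  | zero => simp
  | succ J ih =>
    have h1 := ih (by omega)
    have h2 := choose_one_step (ℓ + J) L k (by nlinarith)
    calc (k + 2) ^ (J + 1) * ℓ.choose L = (k + 2) * ((k + 2) ^ J * ℓ.choose L) := by ring
      _ ≤ (k + 2) * ((k + 1) ^ J * (ℓ + J).choose L) := Nat.mul_le_mul_left _ h1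
      _ = (k + 1) ^ J * ((k + 2) * (ℓ + J).choose L) := by ring
      _ ≤ (k + 1) ^ J * ((k + 1) * (ℓ + J + 1).choose L) := Nat.mul_le_mul_left _ h2
      _ = (k + 1) ^ (J + 1) * (ℓ + (J + 1)).choose L := by ring_nf

/-- class of an element -/
def kap (w : WG) : Finset ℕ × Equiv.Perm ℕ := (w.f.support, w.g)

/-- there is a path of length k covering Y -/
def Q (k : ℕ) (c : Finset ℕ × Equiv.Perm ℕ) : Prop := ∃ O, U k c.2 O ∧ c.1 ⊆ O

/-- the cost of a class -/
noncomputable def cost (c : Finset ℕ × Equiv.Perm ℕ) : ℕ := sInf {k | Q k c}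

theorem cost_spec {c : Finset ℕ × Equiv.Perm ℕ} {k : ℕ} (h : Q k c) : Q (cost c) c ∧ cost c ≤ k :=
  ⟨Nat.sInf_mem (s := {k | Q k c}) ⟨k, h⟩, Nat.sInf_le h⟩

theorem mem_Bl_iff' (n : ℕ) (w : WG) :
    w ∈ Bl n ↔ (∃ k, Q k (kap w)) ∧ cost (kap w) + l1 w.f ≤ n := by
  rw [mem_Bl_iff]
  constructor
  · rintro ⟨k, O, hU, hs, hk⟩
    have hQ : Q k (kap w) := ⟨O, hU, hs⟩
    refine ⟨⟨k, hQ⟩, ?_⟩
    have := (cost_spec hQ).2
    omega
  · rintro ⟨⟨k, hQ⟩, h⟩
    obtain ⟨O, hU, hs⟩ := (cost_spec hQ).1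
    exact ⟨_, O, hU, hs, h⟩

open Classical in
/-- the fiber of a class in a finset -/
noncomputable def fib (A : Finset WG) (c : Finset ℕ × Equiv.Perm ℕ) : Finset WG :=
  A.filter (fun w => kap w = c)

theorem fib_card (n : ℕ) (c : Finset ℕ × Equiv.Perm ℕ) (hQ : ∃ k, Q k c) (hc : cost c ≤ n) :
    (fib (Bl n) c).card = 2 ^ c.1.card * (n - cost c).choose c.1.card := by
  classical
  obtain ⟨S, hS, hcard⟩ := class_count c.1 (n - cost c)
  rw [← hcard]
  have : fib (Bl n) c = S.image (fun f => (⟨f, c.2⟩ : WG)) := by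
    ext w
    rw [fib, Finset.mem_filter, Finset.mem_image, mem_Bl_iff']
    constructor
    · rintro ⟨⟨_, h⟩, hk⟩
      refine ⟨w.f, ?_, ?_⟩
      · rw [hS]
        rw [hk] at h
        refine ⟨by rw [← hk]; rfl, by omega⟩
      · apply WG.ext
        · rfl
        · rw [← hk]; rfl
    · rintro ⟨f, hf, rfl⟩
      rw [hS] at hf
      have hk : kap ⟨f, c.2⟩ = c := by
        unfold kap
        rw [hf.1]
      rw [hk]
      exact ⟨⟨hQ, by simp only; omega⟩, rfl⟩
  rw [this, Finset.card_image_of_injective]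
  intro f f' h
  exact congrArg WG.f h

theorem fib_empty (n : ℕ) (c : Finset ℕ × Equiv.Perm ℕ) (h : ¬ ((∃ k, Q k c) ∧ cost c ≤ n)) :
    fib (Bl n) c = ∅ := by
  classical
  rw [Finset.eq_empty_iff_forall_notMem]
  intro w hw
  rw [fib, Finset.mem_filter, mem_Bl_iff'] at hw
  obtain ⟨⟨h1, h2⟩, rfl⟩ := hw
  exact h ⟨h1, by omega⟩

theorem card_eq_sum_fib (A : Finset WG) (K : Finset (Finset ℕ × Equiv.Perm ℕ))
    (hK : ∀ w ∈ A, kap w ∈ K) : A.card = ∑ c ∈ K, (fib A c).card := by
  classical
  exact Finset.card_eq_sum_card_fiberwise hK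

theorem fiberwise_le (A B : Finset WG) (m m' : ℕ)
    (h : ∀ c, m * (fib A c).card ≤ m' * (fib B c).card) : m * A.card ≤ m' * B.card := by
  classical
  set K := (A ∪ B).image kap with hKd
  have hA : ∀ w ∈ A, kap w ∈ K := fun w hw =>
    Finset.mem_image_of_mem _ (Finset.mem_union_left _ hw)
  have hB : ∀ w ∈ B, kap w ∈ K := fun w hw =>
    Finset.mem_image_of_mem _ (Finset.mem_union_right _ hw)
  rw [card_eq_sum_fib A K hA, card_eq_sum_fib B K hB, Finset.mul_sum, Finset.mul_sum]
  exact Finset.sum_le_sum fun c _ => h c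




/-- reachable permutations -/
def Reach (g : Equiv.Perm ℕ) : Prop := ∃ n O, U n g O

theorem Reach.mul {g h : Equiv.Perm ℕ} (hg : Reach g) (hh : Reach h) : Reach (g * h) := by
  obtain ⟨n, O, hU⟩ := hh
  induction hU with
  | one => simpa using hg
  | kstep n h O x _ ih =>
    obtain ⟨m, O', h'⟩ := ih
    exact ⟨_, _, by rw [← mul_assoc]; exact U.kstep _ _ _ x h'⟩
  | astep n h O _ ih =>
    obtain ⟨m, O', h'⟩ := ih
    exact ⟨_, _, by rw [← mul_assoc]; exact U.astep _ _ _ h'⟩

theorem reach_a : Reach aP := ⟨_, _, by simpa using U.astep 0 1 {0} U.one⟩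

theorem reach_lift {h : Equiv.Perm ℕ} (hh : Reach h) : ∃ gO, Reach (asm false h gO) := by
  obtain ⟨n, O, hU⟩ := hh
  induction hU with
  | one =>
    refine ⟨1, 0, {0}, ?_⟩
    have : asm false 1 1 = 1 := by
      have := kP_eq_asm K4.e
      rw [kP_e] at this
      simpa [K4.th, K4.al, kP_e, ap] using this.symm
    rw [this]; exact U.one
  | kstep n h O x _ ih =>
    obtain ⟨gO, m, O', h'⟩ := ih
    obtain ⟨y, hy⟩ : ∃ y, K4.th y = x := by
      cases x
      · exact ⟨K4.e, rfl⟩
      · exact ⟨K4.d, rfl⟩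
      · exact ⟨K4.b, rfl⟩
      · exact ⟨K4.c, rfl⟩
    refine ⟨gO * ap (K4.al y), m + 1, O', ?_⟩
    rw [← hy, ← asm_false_mul_k]
    exact U.kstep _ _ _ y h'
  | astep n h O _ ih =>
    obtain ⟨gO, m, O', h'⟩ := ih
    refine ⟨gO * kP K4.d, ?_⟩
    have : asm false (h * aP) (gO * kP K4.d) = asm false h gO * aP * kP K4.c * aP := by
      rw [asm_mul_a]
      show _ = asm true h gO * _ * _
      rw [asm_true_mul_k, asm_mul_a]
      rfl
    rw [this]
    exact ⟨_, _, U.astep _ _ _ (U.kstep _ _ _ _ (U.astep _ _ _ h'))⟩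

theorem transitive (y : ℕ) : ∃ g, Reach g ∧ g 0 = y := by
  induction y using Nat.strong_induction_on with
  | _ y ih =>
    rcases Nat.even_or_odd' y with ⟨m, rfl | rfl⟩
    · rcases Nat.eq_zero_or_pos m with rfl | hm
      · exact ⟨1, ⟨0, {0}, U.one⟩, rfl⟩
      · obtain ⟨h, hh, h0⟩ := ih m (by omega)
        obtain ⟨gO, hg⟩ := reach_lift hh
        refine ⟨_, hg, ?_⟩
        have := asmF_false_even (⇑h) (⇑gO) 0
        rw [asm_apply]
        rw [← h0]; simpa using this
    · obtain ⟨h, hh, h0⟩ := ih m (by omega)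
      obtain ⟨gO, hg⟩ := reach_lift hh
      refine ⟨aP * asm false h gO, reach_a.mul hg, ?_⟩
      have := asmF_false_even (⇑h) (⇑gO) 0
      rw [Equiv.Perm.mul_apply, asm_apply]
      simp only [mul_zero] at this
      rw [this, h0, aP_apply, aN_even]

theorem exists_many (M : ℕ) : ∃ k g O, U k g O ∧ M ≤ O.card := by
  by_contra hcon
  push Not at hcon
  have hfin := few_finite M
  choose g hg h0 using transitive
  choose n O hU using hg
  have : (Set.range (fun y => (O y, g y))).Finite := by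
    refine hfin.subset ?_
    rintro _ ⟨y, rfl⟩
    obtain ⟨r, _, hP⟩ := (hU y).toP
    exact ⟨(hcon _ _ _ (hU y)).le, r, hP⟩
  have hinj : Function.Injective (fun y => (O y, g y)) := by
    intro y y' h
    simp only [Prod.mk.injEq] at h
    rw [← h0 y, ← h0 y', h.2]
  exact (Set.infinite_range_of_injective hinj) this

theorem Bl_lower (M : ℕ) : ∃ p : ℕ, ∀ n, p ≤ n → (n - p).choose M ≤ (Bl n).card := by
  obtain ⟨k, g, O, hU, hM⟩ := exists_many M
  obtain ⟨Y, hY, hYc⟩ := Finset.exists_subset_card_eq hM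
  have hQ : Q k (Y, g) := ⟨O, hU, hY⟩
  refine ⟨cost (Y, g), fun n hn => ?_⟩
  have h1 := fib_card n (Y, g) ⟨k, hQ⟩ hn
  have h2 : (fib (Bl n) (Y, g)).card ≤ (Bl n).card := by
    classical
    exact Finset.card_le_card (Finset.filter_subset _ _)
  rw [h1] at h2
  simp only at h2
  rw [hYc] at h2
  refine le_trans ?_ h2
  exact Nat.le_mul_of_pos_left _ (by positivity)

open Classical in
/-- sphere -/
noncomputable def Sp (n : ℕ) : Finset WG := Bl n \ Bl (n - 1)

open Classical in
/-- few lamps -/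
noncomputable def FewL (J n : ℕ) : Finset WG := (Bl n).filter (fun w => w.f.support.card < J)

open Classical in
/-- the classes that still grow quickly -/
noncomputable def Fast (k J n : ℕ) : Finset WG :=
  (Bl n).filter (fun w => J ≤ w.f.support.card ∧ n - cost (kap w) ≤ k * w.f.support.card)

theorem fast_le (k J n : ℕ) :
    (k + 2) ^ J * (Fast k J n).card ≤ (k + 1) ^ J * (Bl (n + J)).card := by
  classical
  refine fiberwise_le _ _ _ _ fun c => ?_
  by_cases hne : (fib (Fast k J n) c) = ∅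
  · rw [hne]; simp
  · obtain ⟨w, hw⟩ := Finset.nonempty_iff_ne_empty.mpr hne
    rw [fib, Finset.mem_filter, Fast, Finset.mem_filter, mem_Bl_iff'] at hw
    obtain ⟨⟨⟨hQ, hcn⟩, hJ, hl⟩, rfl⟩ := hw
    have h1 : (fib (Fast k J n) (kap w)).card ≤ (fib (Bl n) (kap w)).card := by
      apply Finset.card_le_card
      intro v hv
      rw [fib, Finset.mem_filter, Fast, Finset.mem_filter] at hv
      rw [fib, Finset.mem_filter]
      exact ⟨hv.1.1, hv.2⟩
    have h2 := fib_card n (kap w) hQ (by omega)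
    have h3 := fib_card (n + J) (kap w) hQ (by omega)
    have hk1 : (kap w).1 = w.f.support := rfl
    rw [hk1] at h2 h3
    rw [h3]
    have h4 := choose_growth (n - cost (kap w)) w.f.support.card k hl J hJ
    have h5 : n + J - cost (kap w) = n - cost (kap w) + J := by omega
    rw [h5]
    calc (k + 2) ^ J * (fib (Fast k J n) (kap w)).card
        ≤ (k + 2) ^ J * (2 ^ w.f.support.card * (n - cost (kap w)).choose w.f.support.card) := by
          rw [← h2]; exact Nat.mul_le_mul_left _ h1
      _ = 2 ^ w.f.support.card * ((k + 2) ^ J * (n - cost (kap w)).choose w.f.support.card) := by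
          ring
      _ ≤ 2 ^ w.f.support.card *
            ((k + 1) ^ J * (n - cost (kap w) + J).choose w.f.support.card) :=
          Nat.mul_le_mul_left _ h4
      _ = _ := by ring

open Classical in
theorem slow_le (k J n : ℕ) (hk : 1 ≤ k) (hJ : 1 ≤ J) :
    k * ((Sp n) \ (FewL J n ∪ Fast k J n)).card ≤ (Bl n).card := by
  classical
  have := fiberwise_le ((Sp n) \ (FewL J n ∪ Fast k J n)) (Bl n) k 1 (fun c => ?_)
  · simpa using this
  by_cases hne : (fib ((Sp n) \ (FewL J n ∪ Fast k J n)) c) = ∅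
  · rw [hne]; simp
  · obtain ⟨w, hw⟩ := Finset.nonempty_iff_ne_empty.mpr hne
    rw [fib, Finset.mem_filter, Finset.mem_sdiff, Finset.mem_union, Sp, Finset.mem_sdiff,
      FewL, Fast, Finset.mem_filter, Finset.mem_filter] at hw
    obtain ⟨⟨⟨hwn, hwn1⟩, hnot⟩, rfl⟩ := hw
    have hwn' := (mem_Bl_iff' n w).mp hwn
    obtain ⟨hQ, hcn⟩ := hwn'
    push Not at hnot
    have hJ' : J ≤ w.f.support.card := by
      by_contra hc
      push Not at hc
      have := hnot.1 hwn
      omega
    have hl : k * w.f.support.card < n - cost (kap w) := hnot.2 hwn hJ'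
    have hpos : 1 ≤ k * w.f.support.card := Nat.mul_pos hk (by omega)
    have h1 : fib ((Sp n) \ (FewL J n ∪ Fast k J n)) (kap w) ⊆
        fib (Bl n) (kap w) \ fib (Bl (n - 1)) (kap w) := by
      intro v hv
      rw [fib, Finset.mem_filter, Finset.mem_sdiff, Sp, Finset.mem_sdiff] at hv
      rw [Finset.mem_sdiff, fib, fib, Finset.mem_filter, Finset.mem_filter]
      exact ⟨⟨hv.1.1.1, hv.2⟩, fun h => hv.1.1.2 h.1⟩
    have hsub : fib (Bl (n - 1)) (kap w) ⊆ fib (Bl n) (kap w) := by
      intro v hv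
      rw [fib, Finset.mem_filter] at hv ⊢
      exact ⟨Bl_mono (Nat.sub_le n 1) hv.1, hv.2⟩
    have h2 := Finset.card_le_card h1
    rw [Finset.card_sdiff_of_subset hsub, fib_card n (kap w) hQ (by omega),
      fib_card (n - 1) (kap w) hQ (by omega)] at h2
    have hk1 : (kap w).1 = w.f.support := rfl
    rw [hk1] at h2
    rw [fib_card n (kap w) hQ (by omega), hk1, one_mul]
    have h3 := choose_sphere (n - cost (kap w)) w.f.support.card k (by omega) hk hl.le
    have h4 : n - 1 - cost (kap w) = n - cost (kap w) - 1 := by omega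
    rw [h4, ← Nat.mul_sub] at h2
    calc _ ≤ k * (2 ^ w.f.support.card * ((n - cost (kap w)).choose w.f.support.card -
          (n - cost (kap w) - 1).choose w.f.support.card)) := Nat.mul_le_mul_left _ h2
      _ = 2 ^ w.f.support.card * (k * ((n - cost (kap w)).choose w.f.support.card -
          (n - cost (kap w) - 1).choose w.f.support.card)) := by ring
      _ ≤ _ := Nat.mul_le_mul_left _ h3

theorem sphere_le (k J n : ℕ) (hk : 1 ≤ k) (hJ : 1 ≤ J) :
    k * (Sp n).card ≤ (Bl n).card + k * (FewL J n).card + k * (Fast k J n).card := by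
  classical
  have h1 := slow_le k J n hk hJ
  have h2 : (Sp n).card ≤ ((Sp n) \ (FewL J n ∪ Fast k J n)).card +
      ((FewL J n).card + (Fast k J n).card) := by
    have : Sp n ⊆ ((Sp n) \ (FewL J n ∪ Fast k J n)) ∪ (FewL J n ∪ Fast k J n) := by
      intro w hw
      rw [Finset.mem_union, Finset.mem_sdiff]
      tauto
    refine (Finset.card_le_card this).trans ((Finset.card_union_le _ _).trans ?_)
    exact Nat.add_le_add_left (Finset.card_union_le _ _) _
  calc k * (Sp n).card ≤ k * (((Sp n) \ (FewL J n ∪ Fast k J n)).card +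
      ((FewL J n).card + (Fast k J n).card)) := Nat.mul_le_mul_left _ h2
    _ = k * ((Sp n) \ (FewL J n ∪ Fast k J n)).card +
        (k * (FewL J n).card + k * (Fast k J n).card) := by ring
    _ ≤ _ := by omega




open Classical in
/-- few lamps but many sites -/
noncomputable def ManyS (J m0 n : ℕ) : Finset WG :=
  (FewL J n).filter (fun w => ∃ k O, U k w.g O ∧ w.f.support ⊆ O ∧ k + l1 w.f ≤ n ∧ m0 ≤ O.card)

open Classical in
/-- few sites -/
noncomputable def FewS (m0 n : ℕ) : Finset WG :=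
  (Bl n).filter (fun w => ∃ k O, U k w.g O ∧ w.f.support ⊆ O ∧ k + l1 w.f ≤ n ∧ O.card ≤ m0)

theorem FewL_le (J m0 n : ℕ) : (FewL J n).card ≤ (ManyS J m0 n).card + (FewS m0 n).card := by
  classical
  have : FewL J n ⊆ ManyS J m0 n ∪ FewS m0 n := by
    intro w hw
    rw [Finset.mem_union, ManyS, FewS, Finset.mem_filter, Finset.mem_filter]
    have hb : w ∈ Bl n := by
      rw [FewL, Finset.mem_filter] at hw; exact hw.1
    obtain ⟨k, O, hU, hs, hk⟩ := (mem_Bl_iff n w).mp hb
    rcases le_total m0 O.card with h | h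
    · left; exact ⟨hw, k, O, hU, hs, hk, h⟩
    · right; exact ⟨hb, k, O, hU, hs, hk, h⟩
  exact (Finset.card_le_card this).trans (Finset.card_union_le _ _)

theorem add_single_support (f : ℕ →₀ ℤ) (y : ℕ) (hy : y ∉ f.support) :
    (f + Finsupp.single y 1).support = insert y f.support := by
  have h0 : f y = 0 := Finsupp.notMem_support_iff.mp hy
  ext x
  rw [Finsupp.mem_support_iff, Finset.mem_insert, Finsupp.mem_support_iff]
  by_cases hx : x = y
  · subst hx; simp [h0]
  · have hx' : ¬ y = x := fun h => hx h.symm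
    simp [hx, hx']

theorem add_single_erase (f : ℕ →₀ ℤ) (y : ℕ) (hy : y ∉ f.support) :
    (f + Finsupp.single y 1).erase y = f := by
  have h0 : f y = 0 := Finsupp.notMem_support_iff.mp hy
  ext x
  by_cases hx : x = y
  · subst hx; simp [h0]
  · have hx' : ¬ y = x := fun h => hx h.symm
    simp [Finsupp.erase_ne hx, hx']

theorem ManyS_le (J m0 n : ℕ) :
    (ManyS J m0 n).card * (m0 - J) ≤ (Bl (n + 1)).card * J := by
  classical
  refine Finset.card_mul_le_card_mul
    (fun w z => z.g = w.g ∧ ∃ y, y ∉ w.f.support ∧ z.f = w.f + Finsupp.single y 1) ?_ ?_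
  · intro w hw
    rw [ManyS, Finset.mem_filter, FewL, Finset.mem_filter] at hw
    obtain ⟨⟨hwn, hJ⟩, k, O, hU, hs, hk, hm⟩ := hw
    have hsub : (O \ w.f.support).image (fun y => (⟨w.f + Finsupp.single y 1, w.g⟩ : WG)) ⊆
        Finset.bipartiteAbove (fun w z => z.g = w.g ∧ ∃ y, y ∉ w.f.support ∧
          z.f = w.f + Finsupp.single y 1) (Bl (n + 1)) w := by
      intro z hz
      rw [Finset.mem_image] at hz
      obtain ⟨y, hy, rfl⟩ := hz
      rw [Finset.mem_sdiff] at hy
      rw [Finset.mem_bipartiteAbove]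
      refine ⟨?_, rfl, y, hy.2, rfl⟩
      rw [mem_Bl_iff]
      refine ⟨k, O, hU, ?_, ?_⟩
      · simp only
        rw [add_single_support _ _ hy.2]
        intro x hx
        rw [Finset.mem_insert] at hx
        rcases hx with rfl | hx
        · exact hy.1
        · exact hs hx
      · simp only
        have := l1_add_single w.f y 1
        simp at this
        omega
    refine le_trans ?_ (Finset.card_le_card hsub)
    rw [Finset.card_image_of_injOn, Finset.card_sdiff_of_subset hs]
    · omega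
    · intro y hy y' hy' h
      simp only [WG.mk.injEq, and_true, add_right_inj] at h
      have := congrArg (fun f => f y) h
      simp only [Finsupp.single_eq_same] at this
      by_contra hne
      rw [Finsupp.single_apply, if_neg (fun h => hne h.symm)] at this
      exact one_ne_zero this
  · intro z hz
    by_cases hemp : Finset.bipartiteBelow (fun w z => z.g = w.g ∧ ∃ y, y ∉ w.f.support ∧
          z.f = w.f + Finsupp.single y 1) (ManyS J m0 n) z = ∅
    · rw [hemp]; simp
    · obtain ⟨w, hw⟩ := Finset.nonempty_iff_ne_empty.mpr hemp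
      have hzJ : z.f.support.card ≤ J := by
        rw [Finset.mem_bipartiteBelow, ManyS, Finset.mem_filter, FewL, Finset.mem_filter] at hw
        obtain ⟨⟨⟨_, hJ⟩, _⟩, _, y, hy, hzf⟩ := hw
        rw [hzf, add_single_support _ _ hy]
        have := Finset.card_insert_le y w.f.support
        omega
      refine le_trans ?_ hzJ
      have hsub : Finset.bipartiteBelow (fun w z => z.g = w.g ∧ ∃ y, y ∉ w.f.support ∧
          z.f = w.f + Finsupp.single y 1) (ManyS J m0 n) z ⊆
          z.f.support.image (fun y => (⟨z.f.erase y, z.g⟩ : WG)) := by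
        intro v hv
        rw [Finset.mem_bipartiteBelow] at hv
        obtain ⟨_, hg, y, hy, hzf⟩ := hv
        rw [Finset.mem_image]
        refine ⟨y, ?_, ?_⟩
        · rw [hzf, add_single_support _ _ hy]; exact Finset.mem_insert_self _ _
        · apply WG.ext
          · simp only
            rw [hzf, add_single_erase _ _ hy]
          · exact hg
      exact (Finset.card_le_card hsub).trans Finset.card_image_le

theorem FewS_le (m0 : ℕ) : ∃ C : ℕ, ∀ n, (FewS m0 n).card ≤ C * (n + 1) ^ m0 := by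
  classical
  set F := (few_finite m0).toFinset with hF
  refine ⟨F.card * 4 ^ m0, fun n => ?_⟩
  choose S hS hc using (fun Y => class_count Y n)
  have hsub : FewS m0 n ⊆ F.biUnion (fun p => p.1.powerset.biUnion
      (fun Y => (S Y).image (fun f => (⟨f, p.2⟩ : WG)))) := by
    intro w hw
    rw [FewS, Finset.mem_filter] at hw
    obtain ⟨_, k, O, hU, hs, hk, hm⟩ := hw
    obtain ⟨r, _, hP⟩ := hU.toP
    rw [Finset.mem_biUnion]
    refine ⟨(O, w.g), ?_, ?_⟩
    · rw [hF, Set.Finite.mem_toFinset]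
      exact ⟨hm, r, hP⟩
    · rw [Finset.mem_biUnion]
      refine ⟨w.f.support, Finset.mem_powerset.mpr hs, ?_⟩
      rw [Finset.mem_image]
      refine ⟨w.f, ?_, rfl⟩
      rw [hS]
      exact ⟨rfl, by omega⟩
  refine (Finset.card_le_card hsub).trans (Finset.card_biUnion_le.trans ?_)
  have hb : ∀ p ∈ F, (p.1.powerset.biUnion
      (fun Y => (S Y).image (fun f => (⟨f, p.2⟩ : WG)))).card ≤ 4 ^ m0 * (n + 1) ^ m0 := by
    intro p hp
    rw [hF, Set.Finite.mem_toFinset] at hp
    have hpc : p.1.card ≤ m0 := hp.1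
    refine Finset.card_biUnion_le.trans ?_
    have hY : ∀ Y ∈ p.1.powerset, ((S Y).image (fun f => (⟨f, p.2⟩ : WG))).card ≤
        2 ^ m0 * (n + 1) ^ m0 := by
      intro Y hY
      refine Finset.card_image_le.trans ?_
      rw [hc]
      have hYc : Y.card ≤ m0 := (Finset.card_le_card (Finset.mem_powerset.mp hY)).trans hpc
      refine Nat.mul_le_mul (Nat.pow_le_pow_right (by norm_num) hYc) ?_
      calc n.choose Y.card ≤ n ^ Y.card := Nat.choose_le_pow _ _
        _ ≤ (n + 1) ^ Y.card := Nat.pow_le_pow_left (Nat.le_succ n) _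
        _ ≤ (n + 1) ^ m0 := Nat.pow_le_pow_right (Nat.succ_pos n) hYc
    refine (Finset.sum_le_card_nsmul _ _ _ hY).trans ?_
    rw [Finset.card_powerset, smul_eq_mul]
    calc 2 ^ p.1.card * (2 ^ m0 * (n + 1) ^ m0) ≤ 2 ^ m0 * (2 ^ m0 * (n + 1) ^ m0) :=
          Nat.mul_le_mul_right _ (Nat.pow_le_pow_right (by norm_num) hpc)
      _ = 4 ^ m0 * (n + 1) ^ m0 := by
          rw [← mul_assoc, ← mul_pow]
          norm_num
  refine (Finset.sum_le_card_nsmul _ _ _ hb).trans ?_
  rw [smul_eq_mul, mul_assoc]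

theorem poly_le (A D : ℕ) : ∃ N : ℕ, ∀ n, N ≤ n → A * (n + 1) ^ D ≤ (Bl n).card := by
  obtain ⟨p, hp⟩ := Bl_lower (D + 1)
  refine ⟨max (2 * p + 2 * D + 1) (A * (2 ^ (D + 1) * (D + 1).factorial)), fun n hn => ?_⟩
  have hn1 : 2 * p + 2 * D + 1 ≤ n := (le_max_left _ _).trans hn
  have hn2 : A * (2 ^ (D + 1) * (D + 1).factorial) ≤ n := (le_max_right _ _).trans hn
  refine le_trans ?_ (hp n (by omega))
  have h1 : (n - p + 1 - (D + 1)) ^ (D + 1) ≤ (D + 1).factorial * (n - p).choose (D + 1) := by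
    rw [← Nat.descFactorial_eq_factorial_mul_choose]
    exact Nat.pow_sub_le_descFactorial _ _
  have h2 : n + 1 ≤ 2 * (n - p + 1 - (D + 1)) := by omega
  have h3 : (n + 1) ^ (D + 1) ≤ 2 ^ (D + 1) * ((D + 1).factorial * (n - p).choose (D + 1)) := by
    calc (n + 1) ^ (D + 1) ≤ (2 * (n - p + 1 - (D + 1))) ^ (D + 1) := Nat.pow_le_pow_left h2 _
      _ = 2 ^ (D + 1) * (n - p + 1 - (D + 1)) ^ (D + 1) := mul_pow _ _ _
      _ ≤ _ := Nat.mul_le_mul_left _ h1
  have h4 : (2 ^ (D + 1) * (D + 1).factorial) * (A * (n + 1) ^ D) ≤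
      (2 ^ (D + 1) * (D + 1).factorial) * (n - p).choose (D + 1) := by
    calc (2 ^ (D + 1) * (D + 1).factorial) * (A * (n + 1) ^ D)
        = (A * (2 ^ (D + 1) * (D + 1).factorial)) * (n + 1) ^ D := by ring
      _ ≤ (n + 1) * (n + 1) ^ D := Nat.mul_le_mul_right _ (by omega)
      _ = (n + 1) ^ (D + 1) := by ring
      _ ≤ _ := h3
      _ = _ := by ring
  exact Nat.le_of_mul_le_mul_left h4 (by positivity)

theorem FewL_small (J k : ℕ) (hJ : 1 ≤ J) (hk : 1 ≤ k) :
    ∃ N : ℕ, ∀ n, N ≤ n → k * (FewL J n).card ≤ (Bl n).card := by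
  classical
  set m0 := J + 14 * k * J with hm0
  obtain ⟨C, hC⟩ := FewS_le m0
  obtain ⟨N, hN⟩ := poly_le (2 * k * C) m0
  refine ⟨N, fun n hn => ?_⟩
  have h1 := FewL_le J m0 n
  have h2 := ManyS_le J m0 n
  have h3 : (Bl (n + 1)).card ≤ 7 * (Bl n).card := by
    have := Bl_add n 1
    have h7 : (Bl 1).card ≤ 7 := by
      have hsub : Bl 1 ⊆
          ([1, gA, gK K4.b, gK K4.c, gK K4.d, gD 1, gD (-1)] : List WG).toFinset := by
        intro w hw
        unfold Bl at hw
        rw [pow_one, mem_T0] at hw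
        rw [List.mem_toFinset]
        simpa using hw
      exact (Finset.card_le_card hsub).trans (List.toFinset_card_le _)
    calc (Bl (n + 1)).card ≤ (Bl n).card * (Bl 1).card := this
      _ ≤ (Bl n).card * 7 := Nat.mul_le_mul_left _ h7
      _ = _ := by ring
  have h4 : m0 - J = 14 * k * J := by omega
  rw [h4] at h2
  have h5 : 2 * k * (ManyS J m0 n).card ≤ (Bl n).card := by
    have : (7 * J) * (2 * k * (ManyS J m0 n).card) ≤ (7 * J) * (Bl n).card := by
      calc (7 * J) * (2 * k * (ManyS J m0 n).card) = (ManyS J m0 n).card * (14 * k * J) := by ring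
        _ ≤ (Bl (n + 1)).card * J := h2
        _ ≤ (7 * (Bl n).card) * J := Nat.mul_le_mul_right _ h3
        _ = _ := by ring
    exact Nat.le_of_mul_le_mul_left this (by omega)
  have h6 : 2 * k * (FewS m0 n).card ≤ (Bl n).card := by
    calc 2 * k * (FewS m0 n).card ≤ 2 * k * (C * (n + 1) ^ m0) := Nat.mul_le_mul_left _ (hC n)
      _ = 2 * k * C * (n + 1) ^ m0 := by ring
      _ ≤ _ := hN n hn
  have h7 : 2 * (k * (FewL J n).card) ≤ 2 * (Bl n).card := by
    calc 2 * (k * (FewL J n).card) ≤ 2 * (k * ((ManyS J m0 n).card + (FewS m0 n).card)) :=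
          Nat.mul_le_mul_left _ (Nat.mul_le_mul_left _ h1)
      _ = 2 * k * (ManyS J m0 n).card + 2 * k * (FewS m0 n).card := by ring
      _ ≤ _ := by omega
  omega

theorem class_bound (n L : ℕ) (x : ℝ) (hx : 0 < x) :
    (2 : ℝ) ^ L * (n.choose L : ℝ) ≤ (2 / x) ^ L * (1 + x) ^ n := by
  have h1 : (n.choose L : ℝ) * x ^ L ≤ (1 + x) ^ n := by
    rcases le_or_gt L n with h | h
    · rw [add_comm, add_pow]
      have := Finset.single_le_sum (f := fun m => x ^ m * 1 ^ (n - m) * (n.choose m : ℝ))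
        (s := Finset.range (n + 1)) (fun i _ => by positivity)
        (Finset.mem_range.mpr (Nat.lt_succ_of_le h))
      simp only [one_pow, mul_one] at this ⊢
      linarith
    · rw [Nat.choose_eq_zero_of_lt h]
      simp; positivity
  rw [div_pow]
  calc (2 : ℝ) ^ L * (n.choose L : ℝ) = 2 ^ L / x ^ L * ((n.choose L : ℝ) * x ^ L) := by
        field_simp
    _ ≤ _ := mul_le_mul_of_nonneg_left h1 (by positivity)

theorem Bl_subexp (t : ℝ) (ht : 0 < t) :
    ∃ A : ℝ, 0 < A ∧ ∀ n : ℕ, ((Bl n).card : ℝ) ≤ A * Real.exp (t * n) := by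
  classical
  set x := min (t / 3) 1 with hx
  have hx0 : 0 < x := lt_min (by positivity) one_pos
  have hx1 : x ≤ 1 := min_le_right _ _
  have hxt : x ≤ t / 3 := min_le_left _ _
  set l := Real.log (2 / x) with hl
  have hl0 : 0 < l := Real.log_pos (by rw [lt_div_iff₀ hx0]; linarith)
  obtain ⟨B, hB⟩ := sites_sublinear (t / (9 * l)) (by positivity)
  obtain ⟨A1, hA1⟩ := RF_subexp (t / 9) (by positivity)
  have hA10 : 0 ≤ A1 := by
    have := hA1 0
    simp only [Nat.cast_zero, mul_zero, Real.exp_zero, mul_one] at this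
    exact (Nat.cast_nonneg _).trans this
  refine ⟨A1 * Real.exp (|B| * l) + 1, by positivity, fun n => ?_⟩
  have hK : ∀ w ∈ Bl n, kap w ∈ RF (3 * n) := by
    intro w hw
    obtain ⟨k, O, hU, hs, hk⟩ := (mem_Bl_iff n w).mp hw
    obtain ⟨r, hr, hP⟩ := hU.toP
    rw [mem_RF]
    exact ⟨r, by omega, O, hs, hP⟩
  have hfib : ∀ c ∈ RF (3 * n), ((fib (Bl n) c).card : ℝ) ≤
      Real.exp ((t / 3 * n + |B| * l)) * Real.exp (t / 3 * n) := by
    intro c hc
    rw [mem_RF] at hc
    obtain ⟨r, hr, O, hO, hP⟩ := hc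
    by_cases hcase : (∃ k, Q k c) ∧ cost c ≤ n
    · rw [fib_card n c hcase.1 hcase.2]
      push_cast
      have hch : ((n - cost c).choose c.1.card : ℝ) ≤ (n.choose c.1.card : ℝ) := by
        exact_mod_cast Nat.choose_le_choose _ (Nat.sub_le _ _)
      have h1 : (2 : ℝ) ^ c.1.card * ((n - cost c).choose c.1.card : ℝ) ≤
          (2 / x) ^ c.1.card * (1 + x) ^ n :=
        (mul_le_mul_of_nonneg_left hch (by positivity)).trans (class_bound n _ x hx0)
      refine h1.trans ?_
      have h2 : (2 / x) ^ c.1.card ≤ Real.exp (t / 3 * n + |B| * l) := by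
        have h2x : 0 < 2 / x := by positivity
        rw [← Real.exp_log h2x, ← Real.exp_nat_mul]
        apply Real.exp_le_exp.mpr
        have h3 : (c.1.card : ℝ) ≤ t / (9 * l) * (3 * n) + |B| := by
          have h4 : (c.1.card : ℝ) ≤ O.card := by exact_mod_cast Finset.card_le_card hO
          have h5 := hB r c.2 O hP
          have h6 : (r : ℝ) ≤ 3 * n := by exact_mod_cast hr
          have h7 : t / (9 * l) * (r : ℝ) ≤ t / (9 * l) * (3 * n) :=
            mul_le_mul_of_nonneg_left h6 (by positivity)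
          have h8 := le_abs_self B
          linarith
        calc (c.1.card : ℝ) * Real.log (2 / x) ≤ (t / (9 * l) * (3 * n) + |B|) * l :=
              mul_le_mul_of_nonneg_right h3 hl0.le
          _ = t / 3 * n + |B| * l := by field_simp; ring
      have h9 : (1 + x) ^ n ≤ Real.exp (t / 3 * n) := by
        calc (1 + x) ^ n ≤ (Real.exp x) ^ n := by
              apply pow_le_pow_left₀ (by positivity)
              have := Real.add_one_le_exp x
              linarith
          _ = Real.exp (n * x) := by rw [Real.exp_nat_mul]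
          _ ≤ _ := by
              apply Real.exp_le_exp.mpr
              have := mul_le_mul_of_nonneg_left hxt (Nat.cast_nonneg (α := ℝ) n)
              linarith
      exact mul_le_mul h2 h9 (by positivity) (Real.exp_pos _).le
    · rw [fib_empty n c hcase]
      simp only [Finset.card_empty, Nat.cast_zero]
      positivity
  have hsum : ((Bl n).card : ℝ) ≤ (RF (3 * n)).card *
      (Real.exp ((t / 3 * n + |B| * l)) * Real.exp (t / 3 * n)) := by
    rw [card_eq_sum_fib (Bl n) (RF (3 * n)) hK]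
    push_cast
    refine (Finset.sum_le_card_nsmul _ _ _ hfib).trans ?_
    rw [nsmul_eq_mul]
  have hRF : ((RF (3 * n)).card : ℝ) ≤ A1 * Real.exp (t / 3 * n) := by
    have := hA1 (3 * n)
    push_cast at this
    have h' : t / 9 * (3 * (n : ℝ)) = t / 3 * n := by ring
    rwa [h'] at this
  calc ((Bl n).card : ℝ) ≤ (A1 * Real.exp (t / 3 * n)) *
      (Real.exp ((t / 3 * n + |B| * l)) * Real.exp (t / 3 * n)) :=
        hsum.trans (mul_le_mul_of_nonneg_right hRF (by positivity))
    _ = A1 * Real.exp (|B| * l) * Real.exp (t * n) := by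
        rw [show t * (n : ℝ) = t / 3 * n + t / 3 * n + t / 3 * n by ring]
        simp only [Real.exp_add]
        ring
    _ ≤ _ := by
        apply mul_le_mul_of_nonneg_right _ (Real.exp_pos _).le
        linarith




theorem exists_J (k : ℕ) (hk : 1 ≤ k) :
    ∃ J : ℕ, 1 ≤ J ∧ k * (k + 1) ^ J * (Bl J).card ≤ (k + 2) ^ J := by
  set q : ℝ := ((k : ℝ) + 1) / (k + 2) with hq
  have hq0 : 0 < q := by positivity
  have hq1 : q < 1 := by rw [hq, div_lt_one (by positivity)]; linarith
  set t : ℝ := -Real.log q / 2 with ht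
  have hlog : Real.log q < 0 := Real.log_neg hq0 hq1
  have ht0 : 0 < t := by rw [ht]; linarith
  obtain ⟨A, hA0, hA⟩ := Bl_subexp t ht0
  have hr1 : Real.exp t * q < 1 := by
    have : Real.exp t * q = Real.exp (Real.log q / 2) := by
      conv_lhs => rw [← Real.exp_log hq0, ← Real.exp_add]
      congr 1
      rw [ht]; ring
    rw [this, ← Real.exp_zero]
    exact Real.exp_lt_exp.mpr (by linarith)
  have hr0 : 0 < Real.exp t * q := by positivity
  have hlim : Tendsto (fun J : ℕ => (k : ℝ) * A * (Real.exp t * q) ^ J) atTop (𝓝 0) := by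
    have := (tendsto_pow_atTop_nhds_zero_of_lt_one hr0.le hr1).const_mul ((k : ℝ) * A)
    simpa using this
  have hev := (hlim.eventually (gt_mem_nhds (show (0 : ℝ) < 1 by norm_num))).and
    (eventually_ge_atTop 1)
  obtain ⟨J, hJ, hJ1⟩ := hev.exists
  refine ⟨J, hJ1, ?_⟩
  have h1 : (k : ℝ) * (k + 1) ^ J * ((Bl J).card : ℝ) ≤ (k + 2) ^ J := by
    have h2 := hA J
    have h3 : ((k : ℝ) + 1) ^ J = q ^ J * (k + 2) ^ J := by
      rw [hq, div_pow]; field_simp
    have h4 : Real.exp (t * J) = (Real.exp t) ^ J := by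
      rw [mul_comm, Real.exp_nat_mul]
    calc (k : ℝ) * (k + 1) ^ J * ((Bl J).card : ℝ)
        ≤ (k : ℝ) * (k + 1) ^ J * (A * Real.exp (t * J)) :=
          mul_le_mul_of_nonneg_left h2 (by positivity)
      _ = ((k : ℝ) * A * (Real.exp t * q) ^ J) * (k + 2) ^ J := by
          rw [h3, h4, mul_pow]; ring
      _ ≤ 1 * (k + 2) ^ J := mul_le_mul_of_nonneg_right hJ.le (by positivity)
      _ = _ := one_mul _
  exact_mod_cast h1

theorem sphere_small (k : ℕ) (hk : 1 ≤ k) :
    ∃ N : ℕ, ∀ n, N ≤ n → k * (Sp n).card ≤ 3 * (Bl n).card := by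
  obtain ⟨J, hJ1, hJ⟩ := exists_J k hk
  obtain ⟨N, hN⟩ := FewL_small J k hJ1 hk
  refine ⟨N, fun n hn => ?_⟩
  have h1 := sphere_le k J n hk hJ1
  have h2 := hN n hn
  have h3 : k * (Fast k J n).card ≤ (Bl n).card := by
    have h4 := fast_le k J n
    have h5 := Bl_add n J
    have h6 : (k + 2) ^ J * (k * (Fast k J n).card) ≤ (k + 2) ^ J * (Bl n).card := by
      calc (k + 2) ^ J * (k * (Fast k J n).card) = k * ((k + 2) ^ J * (Fast k J n).card) := by
            ring
        _ ≤ k * ((k + 1) ^ J * (Bl (n + J)).card) := Nat.mul_le_mul_left _ h4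
        _ ≤ k * ((k + 1) ^ J * ((Bl n).card * (Bl J).card)) :=
            Nat.mul_le_mul_left _ (Nat.mul_le_mul_left _ h5)
        _ = (k * (k + 1) ^ J * (Bl J).card) * (Bl n).card := by ring
        _ ≤ (k + 2) ^ J * (Bl n).card := Nat.mul_le_mul_right _ hJ
    exact Nat.le_of_mul_le_mul_left h6 (by positivity)
  omega

theorem Bl_pos (n : ℕ) : 0 < (Bl n).card := by
  classical
  refine Finset.card_pos.mpr ⟨1, ?_⟩
  exact Bl_mono (Nat.zero_le n) (by simp [Bl])

theorem Sp_card (n : ℕ) : (Sp (n + 1)).card + (Bl n).card = (Bl (n + 1)).card := by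
  classical
  unfold Sp
  rw [Nat.add_sub_cancel]
  exact Finset.card_sdiff_add_card_eq_card (Bl_mono (Nat.le_succ n))

theorem Bl_succ_le (n : ℕ) : (Bl (n + 1)).card ≤ (Bl n).card * (Bl 1).card := Bl_add n 1

theorem ratio_tendsto :
    Tendsto (fun n : ℕ => ((Bl (n + 1)).card : ℝ) / ((Bl n).card : ℝ)) atTop (𝓝 1) := by
  rw [Metric.tendsto_atTop]
  intro ε hε
  obtain ⟨k, hk⟩ := exists_nat_gt (3 * ((Bl 1).card : ℝ) / ε)
  have hk0 : (0 : ℝ) < k := lt_of_le_of_lt (by positivity) hk
  have hk1 : 1 ≤ k := by exact_mod_cast hk0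
  obtain ⟨N, hN⟩ := sphere_small k hk1
  refine ⟨N, fun n hn => ?_⟩
  have h1 := hN (n + 1) (by omega)
  have h2 := Sp_card n
  have h3 := Bl_succ_le n
  have hb : (0 : ℝ) < (Bl n).card := by exact_mod_cast Bl_pos n
  have h1' : (k : ℝ) * (Sp (n + 1)).card ≤ 3 * (Bl (n + 1)).card := by exact_mod_cast h1
  have h2' : ((Sp (n + 1)).card : ℝ) + (Bl n).card = (Bl (n + 1)).card := by exact_mod_cast h2
  have h3' : ((Bl (n + 1)).card : ℝ) ≤ (Bl n).card * (Bl 1).card := by exact_mod_cast h3
  have hs : (0 : ℝ) ≤ (Sp (n + 1)).card := Nat.cast_nonneg _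
  rw [Real.dist_eq]
  have h4 : ((Bl (n + 1)).card : ℝ) / (Bl n).card - 1 = (Sp (n + 1)).card / (Bl n).card := by
    field_simp
    linarith
  rw [h4, abs_of_nonneg (by positivity), div_lt_iff₀ hb]
  have h5 : (k : ℝ) * (Sp (n + 1)).card ≤ 3 * ((Bl 1).card : ℝ) * (Bl n).card := by
    nlinarith
  have h6 : 3 * ((Bl 1).card : ℝ) < ε * k := by
    rw [div_lt_iff₀ hε] at hk; linarith
  have h7 : (k : ℝ) * (Sp (n + 1)).card < k * (ε * (Bl n).card) := by
    calc (k : ℝ) * (Sp (n + 1)).card ≤ 3 * ((Bl 1).card : ℝ) * (Bl n).card := h5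
      _ < (ε * k) * (Bl n).card := mul_lt_mul_of_pos_right h6 hb
      _ = k * (ε * (Bl n).card) := by ring
  exact lt_of_mul_lt_mul_left h7 hk0.le

theorem root_tendsto :
    Tendsto (fun n : ℕ => ((Bl n).card : ℝ) ^ ((1 : ℝ) / (n : ℝ))) atTop (𝓝 1) := by
  have hlog : Tendsto (fun n : ℕ => Real.log ((Bl n).card : ℝ) * ((1 : ℝ) / (n : ℝ)))
      atTop (𝓝 0) := by
    rw [Metric.tendsto_atTop]
    intro ε hε
    obtain ⟨A, hA0, hA⟩ := Bl_subexp (ε / 2) (by positivity)
    obtain ⟨N, hN⟩ := exists_nat_gt (2 * |Real.log A| / ε)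
    refine ⟨max N 1, fun n hn => ?_⟩
    have hn1 : 1 ≤ n := (le_max_right _ _).trans hn
    have hnN : (N : ℝ) ≤ n := by exact_mod_cast (le_max_left _ _).trans hn
    have hn0 : (0 : ℝ) < n := by exact_mod_cast hn1
    have hb : (1 : ℝ) ≤ (Bl n).card := by exact_mod_cast Bl_pos n
    have hl0 : 0 ≤ Real.log ((Bl n).card : ℝ) := Real.log_nonneg hb
    rw [Real.dist_eq, sub_zero, abs_of_nonneg (by positivity)]
    have h1 : Real.log ((Bl n).card : ℝ) ≤ Real.log A + ε / 2 * n := by
      calc Real.log ((Bl n).card : ℝ) ≤ Real.log (A * Real.exp (ε / 2 * n)) :=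
            Real.log_le_log (by linarith) (hA n)
        _ = _ := by rw [Real.log_mul hA0.ne' (Real.exp_pos _).ne', Real.log_exp]
    have h2 : |Real.log A| < ε / 2 * n := by
      rw [div_lt_iff₀ hε] at hN
      nlinarith
    have h3 := le_abs_self (Real.log A)
    rw [mul_one_div, div_lt_iff₀ hn0]
    linarith
  have := (Real.continuous_exp.tendsto 0).comp hlog
  rw [Real.exp_zero] at this
  refine this.congr fun n => ?_
  have hb : (0 : ℝ) < (Bl n).card := by exact_mod_cast Bl_pos n
  rw [Function.comp, Real.rpow_def_of_pos hb]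

theorem not_poly : ¬ ∃ (C d : ℝ), ∀ k : ℕ, 1 ≤ k → ((Bl k).card : ℝ) ≤ C * (k : ℝ) ^ d := by
  rintro ⟨C, d, h⟩
  obtain ⟨D, hD⟩ := exists_nat_ge d
  obtain ⟨A, hA⟩ := exists_nat_gt C
  obtain ⟨N, hN⟩ := poly_le A D
  have h1 := h (max N 1) (le_max_right _ _)
  have h2 := hN (max N 1) (le_max_left _ _)
  set n := max N 1 with hn
  have hn1 : (1 : ℝ) ≤ n := by exact_mod_cast le_max_right N 1
  have h3 : (A : ℝ) * (n + 1) ^ D ≤ (Bl n).card := by exact_mod_cast h2
  have h4 : (n : ℝ) ^ d ≤ (n : ℝ) ^ D := by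
    rw [← Real.rpow_natCast]
    exact Real.rpow_le_rpow_of_exponent_le hn1 hD
  have h5 : (0 : ℝ) < (n : ℝ) ^ d := Real.rpow_pos_of_pos (by linarith) _
  have h6 : C * (n : ℝ) ^ d < A * (n : ℝ) ^ d := mul_lt_mul_of_pos_right hA h5
  have h7 : (A : ℝ) * (n : ℝ) ^ d ≤ A * (n + 1) ^ D := by
    apply mul_le_mul_of_nonneg_left _ (Nat.cast_nonneg A)
    refine h4.trans (pow_le_pow_left₀ (by linarith) (by linarith) _)
  linarith

/-- The number of elements of the group `G` of word length at most `k` over `S ∪ S⁻¹`. -/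
noncomputable def ballSize (G : Type) [Group G] (S : Finset G) (k : ℕ) : ℕ :=
  Nat.card {g : G // ∃ l : List G, l.length ≤ k ∧ (∀ x ∈ l, x ∈ S ∨ x⁻¹ ∈ S) ∧ l.prod = g}

theorem ballSize_eq (G : Type) [Group G] [DecidableEq G] (S : Finset G) (k : ℕ) :
    ballSize G S k = ((S ∪ S⁻¹ ∪ {1}) ^ k).card := by
  have hmem : ∀ x : G, x ∈ (S ∪ S⁻¹ ∪ {1} : Finset G) ↔ (x ∈ S ∨ x⁻¹ ∈ S) ∨ x = 1 := by
    intro x
    simp only [Finset.mem_union, Finset.mem_inv', Finset.mem_singleton]
  have h1 : (1 : G) ∈ (S ∪ S⁻¹ ∪ {1} : Finset G) := by rw [hmem]; right; rfl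
  have hset : {g : G | ∃ l : List G, l.length ≤ k ∧ (∀ x ∈ l, x ∈ S ∨ x⁻¹ ∈ S) ∧ l.prod = g} =
      (((S ∪ S⁻¹ ∪ {1}) ^ k : Finset G) : Set G) := by
    ext g
    simp only [Set.mem_ofPred_eq, Finset.mem_coe]
    constructor
    · rintro ⟨l, hl, hx, rfl⟩
      have : l.prod ∈ (S ∪ S⁻¹ ∪ {1} : Finset G) ^ l.length := by
        clear hl
        induction l with
        | nil => simp
        | cons a l ih =>
          rw [List.prod_cons, List.length_cons, pow_succ']
          refine Finset.mul_mem_mul ?_ (ih fun x hx' => hx x (List.mem_cons_of_mem _ hx'))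
          rw [hmem]; left; exact hx a List.mem_cons_self
      exact Finset.pow_subset_pow_right h1 hl this
    · intro hg
      induction k generalizing g with
      | zero =>
        simp only [pow_zero, Finset.mem_one] at hg
        subst hg
        exact ⟨[], by simp, by simp, by simp⟩
      | succ k ih =>
        rw [pow_succ', Finset.mem_mul] at hg
        obtain ⟨u, hu, v, hv, rfl⟩ := hg
        obtain ⟨l, hl, hx, rfl⟩ := ih v hv
        rw [hmem] at hu
        rcases hu with hu | rfl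
        · refine ⟨u :: l, by simpa using hl, ?_, by simp⟩
          intro x hx'
          rcases List.mem_cons.mp hx' with rfl | h
          · exact hu
          · exact hx x h
        · exact ⟨l, by omega, hx, by simp⟩
  unfold ballSize
  have : Nat.card {g : G // ∃ l : List G, l.length ≤ k ∧ (∀ x ∈ l, x ∈ S ∨ x⁻¹ ∈ S) ∧
      l.prod = g} = Set.ncard {g : G | ∃ l : List G, l.length ≤ k ∧
        (∀ x ∈ l, x ∈ S ∨ x⁻¹ ∈ S) ∧ l.prod = g} := rfl
  rw [this, hset, Set.ncard_coe_finset]

open Classical in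
/-- generating set in the closure -/
noncomputable def SG : Finset (Subgroup.closure (S0 : Set WG)) :=
  S0.subtype (fun x => x ∈ Subgroup.closure (S0 : Set WG))

theorem SG_closure : Subgroup.closure (SG : Set (Subgroup.closure (S0 : Set WG))) = ⊤ := by
  classical
  have : (SG : Set (Subgroup.closure (S0 : Set WG))) =
      ((↑) : Subgroup.closure (S0 : Set WG) → WG) ⁻¹' (S0 : Set WG) := by
    ext x
    simp [SG]
  rw [this]
  exact Subgroup.closure_closure_coe_preimage

theorem ballSize_SG (k : ℕ) :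
    ballSize (Subgroup.closure (S0 : Set WG)) SG k = (Bl k).card := by
  classical
  rw [ballSize_eq]
  have hinj : Function.Injective (Subgroup.closure (S0 : Set WG)).subtype :=
    Subgroup.subtype_injective _
  rw [← Finset.card_image_of_injective _ hinj, Finset.image_pow]
  unfold Bl
  congr 2
  ext w
  rw [mem_T0, Finset.mem_image]
  have hS : ∀ w : WG, w ∈ S0 → w ∈ Subgroup.closure (S0 : Set WG) :=
    fun w hw => Subgroup.subset_closure hw
  have hT : ∀ w : WG, w ∈ T0 ↔ (w ∈ S0 ∨ w⁻¹ ∈ S0) ∨ w = 1 := by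
    intro w
    simp only [T0, Finset.mem_union, Finset.mem_inv', Finset.mem_singleton]
  rw [← mem_T0, hT]
  constructor
  · rintro ⟨x, hx, rfl⟩
    simp only [Finset.mem_union, Finset.mem_inv', Finset.mem_singleton, SG,
      Finset.mem_subtype] at hx
    rcases hx with (hx | hx) | hx
    · left; left; exact hx
    · left; right; simpa using hx
    · right; rw [hx]; simp
  · rintro ((hw | hw) | rfl)
    · refine ⟨⟨w, hS w hw⟩, ?_, rfl⟩
      simp only [Finset.mem_union, Finset.mem_inv', Finset.mem_singleton, SG,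
        Finset.mem_subtype]
      left; left; exact hw
    · have hw' : w ∈ Subgroup.closure (S0 : Set WG) := by
        have := (Subgroup.closure (S0 : Set WG)).inv_mem (hS _ hw)
        simpa using this
      refine ⟨⟨w, hw'⟩, ?_, rfl⟩
      simp only [Finset.mem_union, Finset.mem_inv', Finset.mem_singleton, SG,
        Finset.mem_subtype]
      left; right; exact hw
    · refine ⟨1, ?_, by simp⟩
      simp only [Finset.mem_union, Finset.mem_inv', Finset.mem_singleton]
      right; trivial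

theorem result : ∃ (G : Type) (_ : Group G) (S : Finset G),
    Subgroup.closure (S : Set G) = ⊤ ∧
    Tendsto (fun k : ℕ => (ballSize G S k : ℝ) ^ ((1 : ℝ) / (k : ℝ))) atTop (𝓝 1) ∧
    (¬ ∃ C d : ℝ, ∀ k : ℕ, 1 ≤ k → (ballSize G S k : ℝ) ≤ C * (k : ℝ) ^ d) ∧
    Tendsto (fun k : ℕ => (ballSize G S (k + 1) : ℝ) / (ballSize G S k : ℝ)) atTop (𝓝 1) := by
  refine ⟨Subgroup.closure (S0 : Set WG), inferInstance, SG, SG_closure, ?_, ?_, ?_⟩
  · simp only [ballSize_SG]; exact root_tendsto
  · simp only [ballSize_SG]; exact not_poly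
  · simp only [ballSize_SG]; exact ratio_tendsto


end Pool.Agent.Results.MP_e563b5_al.IntermediateRatio
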